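import Pool.Agent.Zk22.WF.D

/-! # The single point masses -/

set_option autoImplicit false

open MeasureTheory Set Filter Topology

namespace Pool.Agent.Zk22.WF

open Pool.Agent.Y749.Rig

section
variable {μ : Measure ℝ} {C : ℝ}

lemma w_int [IsFiniteMeasure μ] (y : ℝ) : Integrable (fun x : ℝ => 1 / (1 + (x - y) ^ 2)) μ := by
  refine Integrable.of_bound (C := 1) ?_ (ae_of_all _ fun x => ?_)
  · apply Continuous.aestronglyMeasurable
    refine continuous_const.div (by fun_prop) fun x => ?_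
    have : 0 < 1 + (x - y) ^ 2 := by positivity
    exact this.ne'
  · rw [Real.norm_eq_abs, abs_of_nonneg (by positivity), div_le_one (by positivity)]
    nlinarith [sq_nonneg (x - y)]

lemma int_w [IsFiniteMeasure μ] (hC : 0 ≤ C) (hm : Bdd C μ) : ∫ x : ℝ, 1 / (1 + (x - 0) ^ 2) ∂μ ≤ 2 * C * DD 0 := by
  have h1 := lint_le hC hm 0
  have h2 : {x : ℝ | ((0 : ℕ) : ℝ) ≤ |x|} = univ := by ext x; simp
  rw [h2, Measure.restrict_univ] at h1
  simp_rw [sub_zero]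
  rw [integral_eq_lintegral_of_nonneg_ae (ae_of_all _ fun x => by
    show 0 ≤ 1 / (1 + x ^ 2)
    positivity) (by simpa using (w_int (μ := μ) 0).1)]
  refine ENNReal.toReal_le_of_le_ofReal (mul_nonneg (by linarith) (DD_nonneg 0)) h1

lemma int_wy [IsFiniteMeasure μ] (hC : 0 ≤ C) (hm : Bdd C μ) (y : ℝ) :
    ∫ x : ℝ, 1 / (1 + (x - y) ^ 2) ∂μ ≤ 2 * (1 + y ^ 2) * (2 * C * DD 0) := by
  refine le_trans ?_ (mul_le_mul_of_nonneg_left (int_w hC hm) (by positivity))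
  rw [← integral_const_mul]
  refine integral_mono (w_int y) ((w_int 0).const_mul _) fun x => ?_
  simp only
  rw [sub_zero, mul_one_div, div_le_div_iff₀ (by positivity) (by positivity)]
  nlinarith [sq_nonneg (x - 2 * y), mul_nonneg (sq_nonneg y) (sq_nonneg (x - y))]

lemma F_tail {L δ x : ℝ} (hL : 0 < L) (hδ : 0 < δ) (hx : δ ≤ |x|) :
    fl (tr L) x ≤ (1 + 1 / δ ^ 2) / L ^ 2 * (1 / (1 + x ^ 2)) := by
  have h1 := F_sq hL x
  have h2 : δ ^ 2 ≤ x ^ 2 := by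
    rw [← sq_abs x]
    exact pow_le_pow_left₀ hδ.le hx 2
  have h3 : 1 + x ^ 2 ≤ (1 + 1 / δ ^ 2) * x ^ 2 := by
    have : 1 ≤ 1 / δ ^ 2 * x ^ 2 := by
      rw [one_div, inv_mul_eq_div, one_le_div (by positivity)]
      exact h2
    linarith
  rw [mul_one_div, div_div, le_div_iff₀ (by positivity)]
  have h4 : fl (tr L) x * (L ^ 2 * (1 + x ^ 2)) ≤ fl (tr L) x * (L ^ 2 * ((1 + 1 / δ ^ 2) * x ^ 2)) :=
    mul_le_mul_of_nonneg_left (mul_le_mul_of_nonneg_left h3 (by positivity)) (F_nonneg hL x)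
  have h5 : fl (tr L) x * (L ^ 2 * ((1 + 1 / δ ^ 2) * x ^ 2)) = (1 + 1 / δ ^ 2) * (fl (tr L) x * (L * x) ^ 2) := by
    ring
  have h6 : (1 + 1 / δ ^ 2) * (fl (tr L) x * (L * x) ^ 2) ≤ (1 + 1 / δ ^ 2) * 1 :=
    mul_le_mul_of_nonneg_left h1 (by positivity)
  linarith

lemma k_int [IsFiniteMeasure μ] {w : ℝ → ℝ} (hw : Continuous w) (w0 : ∀ x, 0 ≤ w x) (w1 : ∀ x, w x ≤ 1) {L : ℝ}
    (hL : 0 < L) (y : ℝ) : Integrable (fun x => fl (tr L) (x - y) * w x) μ := by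
  have hc := fl_cont (tr_int hL)
  refine Integrable.of_bound (C := 1) ?_ (ae_of_all _ fun x => ?_)
  · apply Continuous.aestronglyMeasurable
    fun_prop
  · rw [Real.norm_eq_abs, abs_of_nonneg (mul_nonneg (F_nonneg hL _) (w0 x))]
    exact mul_le_one₀ (F_le_one hL _) (w0 x) (w1 x)

lemma up1 [IsFiniteMeasure μ] (hC : 0 ≤ C) (hm : Bdd C μ) {w : ℝ → ℝ} (hw : Continuous w) (w0 : ∀ x, 0 ≤ w x)
    (w1 : ∀ x, w x ≤ 1) {L δ : ℝ} (hL : 0 < L) (hδ : 0 < δ) (y : ℝ) :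
    ∫ x, fl (tr L) (x - y) * w x ∂μ ≤
      μ.real (Icc (y - δ) (y + δ)) + (1 + 1 / δ ^ 2) / L ^ 2 * (2 * (1 + y ^ 2) * (2 * C * DD 0)) := by
  have hpt : ∀ x, fl (tr L) (x - y) * w x ≤ (Icc (y - δ) (y + δ)).indicator (fun _ => (1 : ℝ)) x +
      (1 + 1 / δ ^ 2) / L ^ 2 * (1 / (1 + (x - y) ^ 2)) := by
    intro x
    have h1 : fl (tr L) (x - y) * w x ≤ fl (tr L) (x - y) :=
      mul_le_of_le_one_right (F_nonneg hL _) (w1 x)
    have hp : 0 ≤ (1 + 1 / δ ^ 2) / L ^ 2 * (1 / (1 + (x - y) ^ 2)) := by positivity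
    by_cases hx : x ∈ Icc (y - δ) (y + δ)
    · rw [indicator_of_mem hx]
      linarith [F_le_one hL (x - y)]
    · rw [indicator_of_notMem hx, zero_add]
      refine h1.trans (F_tail hL hδ ?_)
      by_contra hcon
      have h2 := abs_le.1 (not_le.1 hcon).le
      exact hx ⟨by linarith [h2.1], by linarith [h2.2]⟩
  have i1 : Integrable ((Icc (y - δ) (y + δ)).indicator fun _ => (1 : ℝ)) μ :=
    (integrable_const _).indicator measurableSet_Icc
  have i2 : Integrable (fun x => (1 + 1 / δ ^ 2) / L ^ 2 * (1 / (1 + (x - y) ^ 2))) μ := (w_int y).const_mul _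
  have i3 : Integrable (fun x => (Icc (y - δ) (y + δ)).indicator (fun _ => (1 : ℝ)) x +
      (1 + 1 / δ ^ 2) / L ^ 2 * (1 / (1 + (x - y) ^ 2))) μ := i1.add i2
  refine (integral_mono (k_int hw w0 w1 hL y) i3 hpt).trans ?_
  rw [integral_add i1 i2, integral_indicator measurableSet_Icc, setIntegral_const, integral_const_mul,
    smul_eq_mul, mul_one]
  have := mul_le_mul_of_nonneg_left (int_wy hC hm y) (show 0 ≤ (1 + 1 / δ ^ 2) / L ^ 2 by positivity)
  linarith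

lemma low1 [IsFiniteMeasure μ] {w : ℝ → ℝ} (hw : Continuous w) (w0 : ∀ x, 0 ≤ w x)
    (w1 : ∀ x, w x ≤ 1) {L δ c : ℝ} (hL : 0 < L) (y : ℝ) (hc : 0 ≤ c)
    (h : ∀ x ∈ Icc (y - δ) (y + δ), c ≤ fl (tr L) (x - y) * w x) :
    c * μ.real (Icc (y - δ) (y + δ)) ≤ ∫ x, fl (tr L) (x - y) * w x ∂μ := by
  have e : c * μ.real (Icc (y - δ) (y + δ)) = ∫ x, (Icc (y - δ) (y + δ)).indicator (fun _ => c) x ∂μ := by
    rw [integral_indicator measurableSet_Icc, setIntegral_const, smul_eq_mul, mul_comm]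
  rw [e]
  refine integral_mono ((integrable_const _).indicator measurableSet_Icc) (k_int hw w0 w1 hL y) fun x => ?_
  simp only
  by_cases hx : x ∈ Icc (y - δ) (y + δ)
  · rw [indicator_of_mem hx]
    exact h x hx
  · rw [indicator_of_notMem hx]
    exact mul_nonneg (F_nonneg hL _) (w0 x)

end

variable {l : Filter ℝ} {M : ℝ → Measure ℝ} {W : ℝ → ℝ → ℝ} {C : ℝ}

/-- the coefficient -/
noncomputable def cl (M : ℝ → Measure ℝ) (W : ℝ → ℝ → ℝ) (y L T : ℝ) : ℝ :=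
  (∫ x, fl (tr L) (x - y) * W T x ∂(M T) + ∫ x, fl (tr L) (x - -y) * W T x ∂(M T)) / 2

lemma cl_up (S : Sys l M W C) (y : ℝ) {δ : ℝ} (hδ : 0 < δ) {ε : ℝ} (hε : 0 < ε) : ∃ L₀ : ℝ, 0 < L₀ ∧
    ∀ L : ℝ, L₀ ≤ L → ∀ᶠ T in l, cl M W y L T ≤ (M T).real (Icc (y - δ) (y + δ)) + ε := by
  obtain ⟨K, hK⟩ : ∃ K : ℝ, K = (1 + 1 / δ ^ 2) * (2 * (1 + y ^ 2) * (2 * C * DD 0)) := ⟨_, rfl⟩
  have hK0 : 0 ≤ K := by
    rw [hK]
    have := DD_nonneg 0
    have := S.hC
    positivity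
  refine ⟨K / ε + 1, by positivity, fun L hL => ?_⟩
  have hL1 : 1 ≤ L := by
    have : 0 ≤ K / ε := by positivity
    linarith
  have hL0 : 0 < L := by linarith
  filter_upwards [S.bdd, S.ev] with T t1 t2
  have := S.fin T
  have h1 := up1 S.hC t1 (S.Wc T) (S.Wpos T) (S.Wle T) hL0 hδ y
  have h2 := up1 S.hC t1 (S.Wc T) (S.Wpos T) (S.Wle T) hL0 hδ (-y)
  have h3 := ev_eq S.hC t1 t2 (y - δ) (y + δ)
  rw [show -(y + δ) = -y - δ by ring, show -(y - δ) = -y + δ by ring] at h3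
  rw [h3, neg_sq] at h2
  have h4 : (1 + 1 / δ ^ 2) / L ^ 2 * (2 * (1 + y ^ 2) * (2 * C * DD 0)) ≤ ε := by
    rw [div_mul_eq_mul_div, ← hK, div_le_iff₀ (by positivity)]
    have h5 : K ≤ ε * L := by
      have : K / ε ≤ L := by linarith
      rw [div_le_iff₀ hε] at this
      linarith
    have h6 : ε * L ≤ ε * L ^ 2 := by nlinarith
    linarith
  unfold cl
  linarith

lemma cl_low (S : Sys l M W C) (y : ℝ) {L : ℝ} (hL : 0 < L) {ε : ℝ} (hε : 0 < ε) : ∃ δ : ℝ, 0 < δ ∧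
    ∀ᶠ T in l, (M T).real (Icc (y - δ) (y + δ)) ≤ cl M W y L T + ε := by
  obtain ⟨η, hη, hη1, hη2⟩ : ∃ η : ℝ, 0 < η ∧ η ≤ 1 ∧ η * (3 * C) ≤ ε := by
    refine ⟨min 1 (ε / (3 * C + 1)), lt_min one_pos (by have := S.hC; positivity), min_le_left _ _, ?_⟩
    have hC := S.hC
    have h1 : min 1 (ε / (3 * C + 1)) * (3 * C) ≤ ε / (3 * C + 1) * (3 * C) :=
      mul_le_mul_of_nonneg_right (min_le_right _ _) (by linarith)
    refine h1.trans ?_
    rw [div_mul_eq_mul_div, div_le_iff₀ (by positivity)]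
    nlinarith
  have hc := fl_cont (tr_int hL)
  have h1 : ∀ᶠ x in 𝓝 (0 : ℝ), 1 - η / 2 < fl (tr L) x := by
    have := hc.tendsto 0
    rw [F_zero hL] at this
    exact this.eventually (lt_mem_nhds (by linarith))
  obtain ⟨δ₀, hδ₀, h2⟩ := Metric.eventually_nhds_iff.1 h1
  obtain ⟨δ, hδ, hδ1, hδ2⟩ : ∃ δ : ℝ, 0 < δ ∧ δ < δ₀ ∧ δ ≤ 1 :=
    ⟨min (δ₀ / 2) 1, lt_min (by linarith) one_pos, (min_le_left _ _).trans_lt (by linarith), min_le_right _ _⟩
  refine ⟨δ, hδ, ?_⟩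
  filter_upwards [S.bdd, S.ev, S.Wlim (|y| + 1) (η / 2) (by linarith)] with T t1 t2 t3
  have := S.fin T
  have hlow : ∀ z : ℝ, |z| = |y| → ∀ x ∈ Icc (z - δ) (z + δ), 1 - η ≤ fl (tr L) (x - z) * W T x := by
    intro z hz x hx
    have h4 : |x - z| ≤ δ := abs_le.2 ⟨by linarith [hx.1], by linarith [hx.2]⟩
    have h5 : 1 - η / 2 ≤ fl (tr L) (x - z) := by
      refine (h2 ?_).le
      rw [Real.dist_eq, sub_zero]
      linarith
    have h6 : |x| ≤ |y| + 1 := by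
      have : |x| ≤ |x - z| + |z| := by
        have := abs_add_le (x - z) z
        rwa [sub_add_cancel] at this
      rw [← hz]
      linarith
    have h7 := t3 x h6
    have h8 : 0 ≤ 1 - η / 2 := by linarith
    have h9 : (1 - η / 2) * (1 - η / 2) ≤ fl (tr L) (x - z) * W T x := mul_le_mul h5 h7 h8 (F_nonneg hL _)
    nlinarith
  have h3 : 0 ≤ 1 - η := by linarith
  have a1 := low1 (μ := M T) (S.Wc T) (S.Wpos T) (S.Wle T) hL y h3 (hlow y rfl)
  have a2 := low1 (μ := M T) (S.Wc T) (S.Wpos T) (S.Wle T) hL (-y) h3 (hlow (-y) (abs_neg y))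
  have h4 := ev_eq S.hC t1 t2 (y - δ) (y + δ)
  rw [show -(y + δ) = -y - δ by ring, show -(y - δ) = -y + δ by ring] at h4
  rw [h4] at a2
  have h5 := t1.real_le S.hC y (b := δ) 2 (by norm_num; linarith)
  norm_num at h5
  have h6 : η * (M T).real (Icc (y - δ) (y + δ)) ≤ η * (3 * C) := mul_le_mul_of_nonneg_left h5 hη.le
  unfold cl
  linarith

/-- **upper bounds for the point mass** -/
theorem atom_up (S : Sys l M W C) (y a : ℝ) :
    (∀ ε : ℝ, 0 < ε → ∃ δ : ℝ, 0 < δ ∧ ∀ᶠ T in l, (M T).real (Icc (y - δ) (y + δ)) ≤ a + ε) ↔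
    (∀ ε : ℝ, 0 < ε → ∃ L₀ : ℝ, 0 < L₀ ∧ ∀ L : ℝ, L₀ ≤ L → ∀ᶠ T in l, cl M W y L T ≤ a + ε) := by
  constructor
  · intro h ε hε
    obtain ⟨δ, hδ, h1⟩ := h (ε / 2) (by positivity)
    obtain ⟨L₀, hL₀, h2⟩ := cl_up S y hδ (show 0 < ε / 2 by positivity)
    refine ⟨L₀, hL₀, fun L hL => ?_⟩
    filter_upwards [h1, h2 L hL] with T t1 t2
    linarith
  · intro h ε hε
    obtain ⟨L₀, hL₀, h1⟩ := h (ε / 2) (by positivity)
    obtain ⟨δ, hδ, h2⟩ := cl_low S y hL₀ (show 0 < ε / 2 by positivity)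
    refine ⟨δ, hδ, ?_⟩
    filter_upwards [h1 L₀ le_rfl, h2] with T t1 t2
    linarith

/-- **lower bounds for the point mass** -/
theorem atom_low (S : Sys l M W C) (y a : ℝ) :
    (∀ ε δ : ℝ, 0 < ε → 0 < δ → ∀ᶠ T in l, a - ε ≤ (M T).real (Icc (y - δ) (y + δ))) ↔
    (∀ ε L : ℝ, 0 < ε → 0 < L → ∀ᶠ T in l, a - ε ≤ cl M W y L T) := by
  constructor
  · intro h ε L hε hL
    obtain ⟨δ, hδ, h2⟩ := cl_low S y hL (show 0 < ε / 2 by positivity)
    filter_upwards [h (ε / 2) δ (by positivity) hδ, h2] with T t1 t2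
    linarith
  · intro h ε δ hε hδ
    obtain ⟨L₀, hL₀, h2⟩ := cl_up S y hδ (show 0 < ε / 2 by positivity)
    filter_upwards [h (ε / 2) L₀ (by positivity) hL₀, h2 L₀ le_rfl] with T t1 t2
    linarith

/-- the coefficient of the form factor -/
theorem cl_Fr (y T : ℝ) {L : ℝ} (hL : 0 < L) :
    cl Mp Wz y L T = 2 / L ^ 2 * ∫ α in (0 : ℝ)..L, (L - α) * Real.cos (2 * Real.pi * y * α) * Fr T α := by
  have hfin := Mp_fin T
  have hWc : Continuous (Wz T) := by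
    have := ww_cont
    unfold Wz
    fun_prop
  have W0 : ∀ x, 0 ≤ Wz T x := fun x => (ww_pos _).le
  have W1 : ∀ x, Wz T x ≤ 1 := fun x => ww_le _
  have h1 := Fr_pair (T := T) (mod_int (tr_int hL) y)
  have h2 : ∫ x, fl (fun b => tr L b * Real.cos (2 * Real.pi * b * y)) x * ww (2 * Real.pi * x / Real.log T)
      ∂(Mp T) = cl Mp Wz y L T := by
    unfold cl
    rw [← integral_add (k_int hWc W0 W1 hL y) (k_int hWc W0 W1 hL (-y)), ← integral_div]
    refine integral_congr_ae (ae_of_all _ fun x => ?_)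
    simp only
    rw [fl_mod (tr_int hL), sub_neg_eq_add]
    show (fl (tr L) (x - y) + fl (tr L) (x + y)) / 2 * Wz T x = _
    ring
  rw [← h2, ← h1, int_supp hL (fun x hx => by rw [tr_supp hL x hx, zero_mul, zero_mul])]
  have hc : Continuous fun b => tr L b * Real.cos (2 * Real.pi * b * y) * Fr T b := by
    have := tr_cont L
    have := Fr_cont T
    fun_prop
  rw [← intervalIntegral.integral_add_adjacent_intervals (b := 0) (hc.intervalIntegrable _ _)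
    (hc.intervalIntegrable _ _)]
  have h5 : ∫ α in (-L)..0, tr L α * Real.cos (2 * Real.pi * α * y) * Fr T α =
      ∫ α in (0 : ℝ)..L, tr L α * Real.cos (2 * Real.pi * α * y) * Fr T α := by
    have := intervalIntegral.integral_comp_neg (a := (0 : ℝ)) (b := L)
      fun α => tr L α * Real.cos (2 * Real.pi * α * y) * Fr T α
    rw [neg_zero] at this
    rw [← this]
    refine intervalIntegral.integral_congr fun α _ => ?_
    show tr L (-α) * Real.cos (2 * Real.pi * -α * y) * Fr T (-α) = tr L α * Real.cos (2 * Real.pi * α * y) * Fr T α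
    rw [tr_even, Fr_even, show 2 * Real.pi * -α * y = -(2 * Real.pi * α * y) by ring, Real.cos_neg]
  rw [h5, ← intervalIntegral.integral_const_mul, ← intervalIntegral.integral_add (hc.intervalIntegrable _ _)
    (hc.intervalIntegrable _ _)]
  refine intervalIntegral.integral_congr fun α hα => ?_
  rw [uIcc_of_le hL.le] at hα
  show tr L α * Real.cos (2 * Real.pi * α * y) * Fr T α + tr L α * Real.cos (2 * Real.pi * α * y) * Fr T α =
    2 / L ^ 2 * ((L - α) * Real.cos (2 * Real.pi * y * α) * Fr T α)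
  rw [tr_eq hL hα.1 hα.2, show 2 * Real.pi * y * α = 2 * Real.pi * α * y by ring]
  field_simp
  ring

end Pool.Agent.Zk22.WF
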