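import Pool.Agent.Y749.Rig.Tst2

/-! # Wiener's theorem for finite measures, with Fejer means -/

set_option autoImplicit false

open MeasureTheory Set Filter Topology

namespace Pool.Agent.Zk22.WF

open Pool.Agent.Y749.Rig

lemma int_tr1 {h : ℝ} (hh : 0 < h) : ∫ x, tr h x = 1 := by
  rw [int_supp hh (fun x hx => tr_supp hh x hx)]
  have hc := tr_cont h
  rw [← intervalIntegral.integral_add_adjacent_intervals (b := 0) (hc.intervalIntegrable _ _)
    (hc.intervalIntegrable _ _)]
  have h5 : ∫ α in (-h)..0, tr h α = ∫ α in (0 : ℝ)..h, tr h α := by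
    have := intervalIntegral.integral_comp_neg (a := (0 : ℝ)) (b := h) (tr h)
    rw [neg_zero] at this
    rw [← this]
    exact intervalIntegral.integral_congr fun α _ => tr_even h α
  have h6 : ∫ α in (0 : ℝ)..h, tr h α = ∫ α in (0 : ℝ)..h, (1 / h - 1 / h ^ 2 * α) := by
    refine intervalIntegral.integral_congr fun α hα => ?_
    rw [uIcc_of_le hh.le] at hα
    rw [tr_eq hh hα.1 hα.2]
    field_simp
  rw [h5, h6, intervalIntegral.integral_sub (by simp) (by
    apply Continuous.intervalIntegrable; fun_prop), intervalIntegral.integral_const,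
    intervalIntegral.integral_const_mul, integral_id]
  simp only [sub_zero, smul_eq_mul]
  field_simp
  ring

lemma F_zero {h : ℝ} (hh : 0 < h) : fl (tr h) 0 = 1 := by
  rw [← int_tr1 hh]
  unfold fl
  simp

lemma F_nonneg {L : ℝ} (hL : 0 < L) (x : ℝ) : 0 ≤ fl (tr L) x := by
  rcases eq_or_ne x 0 with h | h
  · rw [h, F_zero hL]; norm_num
  · rw [fl_tr hL h]; positivity

lemma F_le_one {L : ℝ} (hL : 0 < L) (x : ℝ) : fl (tr L) x ≤ 1 := by
  rcases eq_or_ne x 0 with h | h
  · rw [h, F_zero hL]
  · rw [fl_tr hL h]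
    have hpi := Real.pi_pos
    have hne : Real.pi * L * x ≠ 0 := by positivity
    rw [← sq_abs, abs_div]
    have h1 : |Real.sin (Real.pi * L * x)| ≤ |Real.pi * L * x| := Real.abs_sin_le_abs
    have h2 : |Real.sin (Real.pi * L * x)| / |Real.pi * L * x| ≤ 1 := by
      rw [div_le_one (abs_pos.2 hne)]; exact h1
    exact pow_le_one₀ (by positivity) h2

lemma F_sq {L : ℝ} (hL : 0 < L) (x : ℝ) : fl (tr L) x * (L * x) ^ 2 ≤ 1 := by
  rcases eq_or_ne x 0 with h | h
  · rw [h]; norm_num
  · rw [fl_tr hL h]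
    have hpi := Real.pi_gt_three
    have e : (Real.sin (Real.pi * L * x) / (Real.pi * L * x)) ^ 2 * (L * x) ^ 2 =
        Real.sin (Real.pi * L * x) ^ 2 / Real.pi ^ 2 := by
      field_simp
    rw [e, div_le_one (by positivity)]
    have := Real.sin_sq_le_one (Real.pi * L * x)
    nlinarith

/-- off the window the kernel is small -/
lemma F_off {L δ x : ℝ} (hL : 0 < L) (hδ : 0 < δ) (hx : δ ≤ |x|) : fl (tr L) x ≤ 1 / (L * δ) ^ 2 := by
  have h1 := F_sq hL x
  have h2 : (L * δ) ^ 2 ≤ (L * x) ^ 2 := by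
    rw [mul_pow, mul_pow, ← sq_abs x]
    have := pow_le_pow_left₀ hδ.le hx 2
    have h3 : 0 ≤ L ^ 2 := by positivity
    nlinarith
  rw [le_div_iff₀ (by positivity)]
  exact (mul_le_mul_of_nonneg_left h2 (F_nonneg hL x)).trans h1

/-- near the origin the kernel is near one -/
lemma F_low {L x : ℝ} (hL : 0 < L) (hx : Real.pi * L * |x| ≤ 1) :
    1 - (Real.pi * L * x) ^ 2 / 2 ≤ fl (tr L) x := by
  rcases eq_or_ne x 0 with h | h
  · rw [h, F_zero hL]; norm_num
  · rw [fl_tr hL h]
    have hpi := Real.pi_pos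
    set u : ℝ := Real.pi * L * |x| with hu
    have hu0 : 0 < u := by
      have := abs_pos.2 h
      positivity
    have e1 : (Real.sin (Real.pi * L * x) / (Real.pi * L * x)) ^ 2 = (Real.sin u / u) ^ 2 := by
      rcases abs_cases x with ⟨h1, _⟩ | ⟨h1, _⟩
      · rw [hu, h1]
      · rw [hu, h1]
        rw [show Real.pi * L * -x = -(Real.pi * L * x) by ring, Real.sin_neg]
        rw [neg_div_neg_eq]
    have e2 : (Real.pi * L * x) ^ 2 = u ^ 2 := by
      rw [hu, mul_pow, mul_pow _ |x|, sq_abs]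
    rw [e1, e2]
    have h3 := Real.sin_gt_sub_cube hu0
    have h4 : 1 - u ^ 2 / 6 ≤ Real.sin u / u := by
      rw [le_div_iff₀ hu0]
      have : (1 - u ^ 2 / 6) * u = u - u ^ 3 / 6 := by ring
      linarith
    have h5 : 0 ≤ 1 - u ^ 2 / 6 := by nlinarith
    have h6 := pow_le_pow_left₀ h5 h4 2
    nlinarith [sq_nonneg (u ^ 2)]

/-- the cosine transform of a measure -/
noncomputable def ct (ν : Measure ℝ) (b : ℝ) : ℝ := ∫ x, Real.cos (2 * Real.pi * b * x) ∂ν

variable {ν : Measure ℝ} [IsFiniteMeasure ν]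

lemma cos_integrable (b : ℝ) : Integrable (fun x => Real.cos (2 * Real.pi * b * x)) ν := by
  refine Integrable.of_bound (C := 1) ?_ (ae_of_all _ fun x => ?_)
  · apply Continuous.aestronglyMeasurable
    fun_prop
  · rw [Real.norm_eq_abs]
    exact Real.abs_cos_le_one _

lemma ct_le (b : ℝ) : |ct ν b| ≤ ν.real univ := by
  unfold ct
  have h := norm_integral_le_of_norm_le_const (μ := ν) (f := fun x => Real.cos (2 * Real.pi * b * x))
    (C := 1) (ae_of_all _ fun x => by rw [Real.norm_eq_abs]; exact Real.abs_cos_le_one _)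
  rwa [Real.norm_eq_abs, one_mul] at h

lemma ct_cont : Continuous (ct ν) := by
  unfold ct
  refine continuous_of_dominated (bound := fun _ => (1 : ℝ)) ?_ ?_ (integrable_const _) ?_
  · intro b
    exact (cos_integrable b).aestronglyMeasurable
  · intro b
    refine ae_of_all _ fun x => ?_
    rw [Real.norm_eq_abs]
    exact Real.abs_cos_le_one _
  · refine ae_of_all _ fun x => ?_
    fun_prop

/-- the pairing of a test function with the cosine transform -/
lemma ct_pair {ψ : ℝ → ℝ} (hψ : Integrable ψ) : ∫ b, ψ b * ct ν b = ∫ x, fl ψ x ∂ν := by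
  unfold ct fl
  have e1 : ∀ α : ℝ, ψ α * ∫ x, Real.cos (2 * Real.pi * α * x) ∂ν =
      ∫ x, ψ α * Real.cos (2 * Real.pi * α * x) ∂ν := fun α => (integral_const_mul _ _).symm
  simp_rw [e1]
  rw [integral_integral_swap]
  have h1 : Integrable (fun p : ℝ × ℝ => ψ p.1 * (1 : ℝ)) (volume.prod ν) :=
    hψ.mul_prod (integrable_const (1 : ℝ))
  simp only [mul_one] at h1
  refine Integrable.mul_bdd (c := 1) h1 ?_ (ae_of_all _ fun p => ?_)
  · apply Continuous.aestronglyMeasurable
    fun_prop
  · rw [Real.norm_eq_abs]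
    exact Real.abs_cos_le_one _

lemma fl_mod {ψ : ℝ → ℝ} (hψ : Integrable ψ) (y x : ℝ) :
    fl (fun b => ψ b * Real.cos (2 * Real.pi * b * y)) x = (fl ψ (x - y) + fl ψ (x + y)) / 2 := by
  unfold fl
  have hi : ∀ z : ℝ, Integrable fun α => ψ α * Real.cos (2 * Real.pi * α * z) := by
    intro z
    refine hψ.mul_bdd (c := 1) ?_ (ae_of_all _ fun p => ?_)
    · apply Continuous.aestronglyMeasurable
      fun_prop
    · rw [Real.norm_eq_abs]
      exact Real.abs_cos_le_one _
  rw [← integral_add (hi _) (hi _), ← integral_div]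
  refine integral_congr_ae (ae_of_all _ fun α => ?_)
  simp only
  have e1 : 2 * Real.pi * α * (x - y) = 2 * Real.pi * α * x - 2 * Real.pi * α * y := by ring
  have e2 : 2 * Real.pi * α * (x + y) = 2 * Real.pi * α * x + 2 * Real.pi * α * y := by ring
  rw [e1, e2, Real.cos_sub, Real.cos_add]
  ring

lemma mod_int {ψ : ℝ → ℝ} (hψ : Integrable ψ) (y : ℝ) :
    Integrable fun b => ψ b * Real.cos (2 * Real.pi * b * y) := by
  refine hψ.mul_bdd (c := 1) ?_ (ae_of_all _ fun p => ?_)
  · apply Continuous.aestronglyMeasurable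
    fun_prop
  · rw [Real.norm_eq_abs]
    exact Real.abs_cos_le_one _

lemma ct_int {ψ : ℝ → ℝ} (hψ : Integrable ψ) : Integrable fun b => ψ b * ct ν b := by
  refine hψ.mul_bdd (c := ν.real univ) ct_cont.aestronglyMeasurable (ae_of_all _ fun p => ?_)
  rw [Real.norm_eq_abs]
  exact ct_le p

/-- the modulated pairing -/
lemma ct_mod {ψ : ℝ → ℝ} (hψ : Integrable ψ) (y : ℝ) :
    ∫ b, ψ b * Real.cos (2 * Real.pi * b * y) * ct ν b =
      ∫ x, (fl ψ (x - y) + fl ψ (x + y)) / 2 ∂ν := by
  rw [ct_pair (mod_int hψ y)]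
  refine integral_congr_ae (ae_of_all _ fun x => ?_)
  exact fl_mod hψ y x

/-- the mean square of the transform -/
lemma ct_sq {ψ : ℝ → ℝ} (hψ : Integrable ψ) :
    ∫ b, ψ b * ct ν b ^ 2 = ∫ y, ∫ x, (fl ψ (x - y) + fl ψ (x + y)) / 2 ∂ν ∂ν := by
  have e1 : ∀ b, ψ b * ct ν b ^ 2 = (ψ b * ct ν b) * ct ν b := fun b => by ring
  simp_rw [e1]
  rw [ct_pair (ct_int hψ)]
  refine integral_congr_ae (ae_of_all _ fun y => ?_)
  simp only
  rw [← ct_mod hψ y]
  unfold fl
  refine integral_congr_ae (ae_of_all _ fun b => ?_)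
  simp only
  ring

/-- **the upper bound.** -/
theorem wiener_up {L δ κ τ R : ℝ} (hL : 0 < L) (hδ : 0 < δ) (hκ : 0 ≤ κ)
    (h1 : ∀ y : ℝ, |y| ≤ R → ν.real (Icc (y - δ) (y + δ)) ≤ κ)
    (h2 : ν.real {x | R < |x|} ≤ τ) :
    ∫ b, tr L b * ct ν b ^ 2 ≤ ν.real univ * (κ + ν.real univ / (L * δ) ^ 2 + τ) := by
  set M := ν.real univ with hM
  have hM0 : 0 ≤ M := measureReal_nonneg
  rw [ct_sq (tr_int hL)]
  have hc := fl_cont (tr_int hL)
  have hFi : ∀ y : ℝ, Integrable (fun x => fl (tr L) (x + y)) ν := by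
    intro y
    refine Integrable.of_bound (C := 1) ?_ (ae_of_all _ fun x => ?_)
    · apply Continuous.aestronglyMeasurable
      fun_prop
    · rw [Real.norm_eq_abs, abs_of_nonneg (F_nonneg hL _)]
      exact F_le_one hL _
  have hone : ∀ y : ℝ, |y| ≤ R → ∫ x, fl (tr L) (x + y) ∂ν ≤ κ + M / (L * δ) ^ 2 := by
    intro y hy
    have hS : MeasurableSet (Icc (-y - δ) (-y + δ)) := measurableSet_Icc
    have h3 : ∫ x, fl (tr L) (x + y) ∂ν ≤
        ∫ x, ((Icc (-y - δ) (-y + δ)).indicator (fun _ => (1 : ℝ)) x + 1 / (L * δ) ^ 2) ∂ν := by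
      refine integral_mono (hFi y) ?_ fun x => ?_
      · exact ((integrable_const (1 : ℝ)).indicator hS).add (integrable_const _)
      · simp only
        by_cases hx : x ∈ Icc (-y - δ) (-y + δ)
        · rw [indicator_of_mem hx]
          have := F_le_one hL (x + y)
          have h4 : 0 ≤ 1 / (L * δ) ^ 2 := by positivity
          linarith
        · rw [indicator_of_notMem hx, zero_add]
          refine F_off hL hδ ?_
          by_contra hcon
          push Not at hcon
          rw [abs_lt] at hcon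
          exact hx ⟨by linarith [hcon.1], by linarith [hcon.2]⟩
    refine h3.trans ?_
    rw [integral_add ((integrable_const (1 : ℝ)).indicator hS) (integrable_const _),
      integral_indicator hS, setIntegral_const, integral_const]
    simp only [smul_eq_mul, mul_one]
    have h5 := h1 (-y) (by rwa [abs_neg])
    have h6 : ν.real univ * (1 / (L * δ) ^ 2) = M / (L * δ) ^ 2 := by rw [hM]; ring
    rw [h6]
    linarith
  have hall : ∀ y : ℝ, ∫ x, fl (tr L) (x + y) ∂ν ≤ M := by
    intro y
    have h3 : ∫ x, fl (tr L) (x + y) ∂ν ≤ ∫ x, (1 : ℝ) ∂ν :=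
      integral_mono (hFi y) (integrable_const _) fun x => F_le_one hL _
    refine h3.trans (le_of_eq ?_)
    rw [integral_const, smul_eq_mul, mul_one]
  have hA : ∀ y : ℝ, ∫ x, (fl (tr L) (x - y) + fl (tr L) (x + y)) / 2 ∂ν ≤
      (κ + M / (L * δ) ^ 2) + {x : ℝ | R < |x|}.indicator (fun _ => M) y := by
    intro y
    have h4 : 0 ≤ M / (L * δ) ^ 2 := by positivity
    rw [integral_div, integral_add (by simpa only [sub_eq_add_neg] using hFi (-y)) (hFi y)]
    by_cases hy : |y| ≤ R
    · have a1 := hone y hy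
      have a2 := hone (-y) (by rwa [abs_neg])
      have a3 : 0 ≤ {x : ℝ | R < |x|}.indicator (fun _ => M) y :=
        indicator_nonneg (fun _ _ => hM0) y
      simp only [← sub_eq_add_neg] at a2
      linarith
    · rw [indicator_of_mem (show y ∈ {x : ℝ | R < |x|} from not_le.1 hy)]
      have a1 := hall y
      have a2 := hall (-y)
      simp only [← sub_eq_add_neg] at a2
      linarith
  have hmeas : MeasurableSet {x : ℝ | R < |x|} := measurableSet_lt measurable_const continuous_abs.measurable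
  have hint : Integrable (fun y => (κ + M / (L * δ) ^ 2) + {x : ℝ | R < |x|}.indicator (fun _ => M) y) ν :=
    (integrable_const _).add ((integrable_const M).indicator hmeas)
  have hB : ∫ y, ∫ x, (fl (tr L) (x - y) + fl (tr L) (x + y)) / 2 ∂ν ∂ν ≤
      ∫ y, ((κ + M / (L * δ) ^ 2) + {x : ℝ | R < |x|}.indicator (fun _ => M) y) ∂ν := by
    refine integral_mono_of_nonneg (ae_of_all _ fun y => ?_) hint (ae_of_all _ hA)
    refine integral_nonneg fun x => ?_
    have := F_nonneg hL (x - y)
    have := F_nonneg hL (x + y)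
    positivity
  refine hB.trans ?_
  rw [integral_add (integrable_const _) ((integrable_const M).indicator hmeas), integral_const,
    integral_indicator hmeas, setIntegral_const]
  simp only [smul_eq_mul]
  rw [← hM]
  have h5 : ν.real {x | R < |x|} * M ≤ τ * M := mul_le_mul_of_nonneg_right h2 hM0
  nlinarith

/-- Jensen's inequality for the Fejer weight -/
lemma jensen {L : ℝ} (hL : 0 < L) {f : ℝ → ℝ} (hf : Continuous f) :
    (∫ b, tr L b * f b) ^ 2 ≤ ∫ b, tr L b * f b ^ 2 := by
  have hcs : ∀ g : ℝ → ℝ, Continuous g → Integrable fun b => tr L b * g b := by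
    intro g hg
    refine Continuous.integrable_of_hasCompactSupport ?_ ?_
    · have := tr_cont L
      fun_prop
    · exact (adm_tr hL).hcs.mul_right
  set m := ∫ b, tr L b * f b with hm
  have h1 : 0 ≤ ∫ b, tr L b * (f b - m) ^ 2 :=
    integral_nonneg fun b => mul_nonneg (tr_nonneg hL b) (sq_nonneg _)
  have e : ∀ b, tr L b * (f b - m) ^ 2 = tr L b * f b ^ 2 - 2 * m * (tr L b * f b) + m ^ 2 * tr L b :=
    fun b => by ring
  simp_rw [e] at h1
  have i1 : Integrable fun b => tr L b * f b ^ 2 := hcs _ (hf.pow 2)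
  have i2 : Integrable fun b => 2 * m * (tr L b * f b) := (hcs _ hf).const_mul _
  have i3 : Integrable fun b => m ^ 2 * tr L b := (tr_int hL).const_mul _
  have i4 : Integrable fun b => tr L b * f b ^ 2 - 2 * m * (tr L b * f b) := i1.sub i2
  rw [integral_add i4 i3, integral_sub i1 i2, integral_const_mul, integral_const_mul,
    int_tr1 hL, ← hm] at h1
  nlinarith

/-- **the lower bound.** -/
theorem wiener_low {L x₀ : ℝ} (hL : 0 < L) (c : ℝ) :
    ν.real (Icc (x₀ - 1 / (Real.pi * L)) (x₀ + 1 / (Real.pi * L))) / 4 ≤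
      √(∫ b, tr L b * (ct ν b - c) ^ 2) + |c| * fl (tr L) x₀ := by
  have hpi := Real.pi_pos
  have hc := fl_cont (tr_int hL)
  have hFi : ∀ y : ℝ, Integrable (fun x => fl (tr L) (x + y)) ν := by
    intro y
    refine Integrable.of_bound (C := 1) ?_ (ae_of_all _ fun x => ?_)
    · apply Continuous.aestronglyMeasurable
      fun_prop
    · rw [Real.norm_eq_abs, abs_of_nonneg (F_nonneg hL _)]
      exact F_le_one hL _
  have h1 := ct_mod (ν := ν) (tr_int hL) x₀
  have h2 : ν.real (Icc (x₀ - 1 / (Real.pi * L)) (x₀ + 1 / (Real.pi * L))) / 4 ≤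
      ∫ x, (fl (tr L) (x - x₀) + fl (tr L) (x + x₀)) / 2 ∂ν := by
    have hS : MeasurableSet (Icc (x₀ - 1 / (Real.pi * L)) (x₀ + 1 / (Real.pi * L))) := measurableSet_Icc
    have h3 : ∫ x, (Icc (x₀ - 1 / (Real.pi * L)) (x₀ + 1 / (Real.pi * L))).indicator (fun _ => (1 / 4 : ℝ)) x ∂ν ≤
        ∫ x, (fl (tr L) (x - x₀) + fl (tr L) (x + x₀)) / 2 ∂ν := by
      refine integral_mono ((integrable_const (1 / 4 : ℝ)).indicator hS) ?_ fun x => ?_
      · exact ((by simpa only [sub_eq_add_neg] using hFi (-x₀) :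
          Integrable (fun x => fl (tr L) (x - x₀)) ν).add (hFi x₀)).div_const 2
      · simp only
        have a1 := F_nonneg hL (x - x₀)
        have a2 := F_nonneg hL (x + x₀)
        by_cases hx : x ∈ Icc (x₀ - 1 / (Real.pi * L)) (x₀ + 1 / (Real.pi * L))
        · rw [indicator_of_mem hx]
          have h4 : |x - x₀| ≤ 1 / (Real.pi * L) := by
            rw [abs_le]
            constructor <;> linarith [hx.1, hx.2]
          have h5 : Real.pi * L * |x - x₀| ≤ 1 := by
            rw [le_div_iff₀ (by positivity)] at h4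
            linarith
          have h6 := F_low hL h5
          have h7 : (Real.pi * L * (x - x₀)) ^ 2 ≤ 1 := by
            rw [mul_pow, ← sq_abs (x - x₀), ← mul_pow]
            exact pow_le_one₀ (by positivity) h5
          linarith
        · rw [indicator_of_notMem hx]
          positivity
    rw [integral_indicator hS, setIntegral_const, smul_eq_mul] at h3
    linarith
  have h3 : ∫ b, tr L b * Real.cos (2 * Real.pi * b * x₀) * ct ν b =
      (∫ b, tr L b * (Real.cos (2 * Real.pi * b * x₀) * (ct ν b - c))) + c * fl (tr L) x₀ := by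
    have hcs : ∀ g : ℝ → ℝ, Continuous g → Integrable fun b => tr L b * g b := by
      intro g hg
      refine Continuous.integrable_of_hasCompactSupport ?_ ?_
      · have := tr_cont L
        fun_prop
      · exact (adm_tr hL).hcs.mul_right
    have e1 : c * fl (tr L) x₀ = ∫ b, c * (tr L b * Real.cos (2 * Real.pi * b * x₀)) := by
      unfold fl
      rw [integral_const_mul]
    have hct : Continuous (ct ν) := ct_cont
    have i1 : Integrable fun b => tr L b * (Real.cos (2 * Real.pi * b * x₀) * (ct ν b - c)) :=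
      hcs (fun b => Real.cos (2 * Real.pi * b * x₀) * (ct ν b - c)) (by fun_prop)
    have i2 : Integrable fun b => c * (tr L b * Real.cos (2 * Real.pi * b * x₀)) :=
      (hcs (fun b => Real.cos (2 * Real.pi * b * x₀)) (by fun_prop)).const_mul c
    rw [e1, ← integral_add i1 i2]
    refine integral_congr_ae (ae_of_all _ fun b => ?_)
    simp only
    ring
  have hct : Continuous (ct ν) := ct_cont
  have h4 := jensen hL (f := fun b => Real.cos (2 * Real.pi * b * x₀) * (ct ν b - c)) (by fun_prop)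
  have h5 : ∫ b, tr L b * (Real.cos (2 * Real.pi * b * x₀) * (ct ν b - c)) ^ 2 ≤
      ∫ b, tr L b * (ct ν b - c) ^ 2 := by
    have hcs : ∀ g : ℝ → ℝ, Continuous g → Integrable fun b => tr L b * g b := by
      intro g hg
      refine Continuous.integrable_of_hasCompactSupport ?_ ?_
      · have := tr_cont L
        fun_prop
      · exact (adm_tr hL).hcs.mul_right
    refine integral_mono (hcs _ (by fun_prop)) (hcs _ (by fun_prop)) fun b => ?_
    simp only
    refine mul_le_mul_of_nonneg_left ?_ (tr_nonneg hL b)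
    rw [mul_pow]
    have := Real.cos_sq_le_one (2 * Real.pi * b * x₀)
    nlinarith [sq_nonneg (ct ν b - c)]
  have h6 : ∫ b, tr L b * (Real.cos (2 * Real.pi * b * x₀) * (ct ν b - c)) ≤
      √(∫ b, tr L b * (ct ν b - c) ^ 2) := Real.le_sqrt_of_sq_le (h4.trans h5)
  rw [h1] at h3
  have h7 : c * fl (tr L) x₀ ≤ |c| * fl (tr L) x₀ :=
    mul_le_mul_of_nonneg_right (le_abs_self c) (F_nonneg hL _)
  linarith

end Pool.Agent.Zk22.WF
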