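import Pool.Agent.Zk22.WF.A
import Pool.Agent.Y749.Rig.Win

/-! # Wiener's theorem for families of pair measures -/

set_option autoImplicit false

open MeasureTheory Set Filter Topology

namespace Pool.Agent.Zk22.WF

open Pool.Agent.Y749.Rig

/-- a family of finite measures, uniformly locally bounded, even, with mass at least one at the origin, and weights
which tend to one locally uniformly -/
structure Sys (l : Filter ℝ) (M : ℝ → Measure ℝ) (W : ℝ → ℝ → ℝ) (C : ℝ) : Prop where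
  fin : ∀ T, IsFiniteMeasure (M T)
  hC : 0 ≤ C
  bdd : ∀ᶠ T in l, Bdd C (M T)
  zero : ∀ ε : ℝ, 0 < ε → ∀ᶠ T in l, 1 - ε ≤ (M T).real {0}
  ev : ∀ᶠ T in l, Ev (M T)
  Wc : ∀ T, Continuous (W T)
  W0 : ∀ T, W T 0 = 1
  Wpos : ∀ T x, 0 ≤ W T x
  Wle : ∀ T x, W T x ≤ 1
  Wlim : ∀ R ε : ℝ, 0 < ε → ∀ᶠ T in l, ∀ x : ℝ, |x| ≤ R → 1 - ε ≤ W T x

/-- the weighted pair measure -/
noncomputable def nu (M : ℝ → Measure ℝ) (W : ℝ → ℝ → ℝ) (h T : ℝ) : Measure ℝ :=
  (M T).withDensity fun x => ENNReal.ofReal (fl (tr h) x * W T x)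

/-- no point masses outside the origin, and mass at most one at the origin -/
def NoAt (l : Filter ℝ) (M : ℝ → Measure ℝ) : Prop := ∀ x ε : ℝ, 0 < ε → ∃ δ : ℝ, 0 < δ ∧ ∀ᶠ T in l,
  (M T).real (Icc (x - δ) (x + δ)) ≤ (if x = 0 then 1 else 0) + ε

/-- the mean square of the transform minus one tends to zero -/
def MS (l : Filter ℝ) (M : ℝ → Measure ℝ) (W : ℝ → ℝ → ℝ) (h : ℝ) : Prop := ∀ ε : ℝ, 0 < ε →
  ∃ L₀ : ℝ, 0 < L₀ ∧ ∀ L : ℝ, L₀ ≤ L → ∀ᶠ T in l, ∫ b, tr L b * (ct (nu M W h T) b - 1) ^ 2 ≤ ε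

variable {l : Filter ℝ} {M : ℝ → Measure ℝ} {W : ℝ → ℝ → ℝ} {C : ℝ}

lemma dens_nonneg (S : Sys l M W C) {h : ℝ} (hh : 0 < h) (T x : ℝ) : 0 ≤ fl (tr h) x * W T x :=
  mul_nonneg (F_nonneg hh x) (S.Wpos T x)

lemma dens_le (S : Sys l M W C) {h : ℝ} (hh : 0 < h) (T x : ℝ) : fl (tr h) x * W T x ≤ 1 :=
  mul_le_one₀ (F_le_one hh x) (S.Wpos T x) (S.Wle T x)

lemma dens_meas (S : Sys l M W C) {h : ℝ} (hh : 0 < h) (T : ℝ) :
    Measurable fun x => ENNReal.ofReal (fl (tr h) x * W T x) := by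
  have h1 := fl_cont (tr_int hh)
  have h2 := S.Wc T
  have h3 : Continuous fun x => fl (tr h) x * W T x := h1.mul h2
  exact h3.measurable.ennreal_ofReal

lemma nu_fin (S : Sys l M W C) {h : ℝ} (hh : 0 < h) (T : ℝ) : IsFiniteMeasure (nu M W h T) := by
  have := S.fin T
  unfold nu
  refine isFiniteMeasure_withDensity ?_
  refine ne_of_lt (lt_of_le_of_lt (lintegral_mono (g := fun _ => (1 : ENNReal)) fun x => ?_) ?_)
  · simp only
    rw [← ENNReal.ofReal_one]
    exact ENNReal.ofReal_le_ofReal (dens_le S hh T x)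
  · rw [lintegral_one]
    exact measure_lt_top _ _

lemma nu_le (S : Sys l M W C) {h : ℝ} (hh : 0 < h) (T : ℝ) {A : Set ℝ} (hA : MeasurableSet A) :
    (nu M W h T).real A ≤ (M T).real A := by
  have := S.fin T
  have := nu_fin S hh T
  refine ENNReal.toReal_mono (measure_ne_top _ _) ?_
  unfold nu
  rw [withDensity_apply _ hA]
  calc ∫⁻ x in A, ENNReal.ofReal (fl (tr h) x * W T x) ∂(M T) ≤ ∫⁻ x in A, 1 ∂(M T) := by
        refine lintegral_mono fun x => ?_
        rw [← ENNReal.ofReal_one]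
        exact ENNReal.ofReal_le_ofReal (dens_le S hh T x)
    _ = (M T) A := by rw [setLIntegral_one]

lemma nu_ge (S : Sys l M W C) {h : ℝ} (hh : 0 < h) (T : ℝ) {A : Set ℝ} (hA : MeasurableSet A) {c : ℝ} (hc : 0 ≤ c)
    (hlow : ∀ x ∈ A, c ≤ fl (tr h) x * W T x) : c * (M T).real A ≤ (nu M W h T).real A := by
  have := S.fin T
  have := nu_fin S hh T
  have h1 : ENNReal.ofReal c * (M T) A ≤ nu M W h T A := by
    unfold nu
    rw [withDensity_apply _ hA]
    calc ENNReal.ofReal c * (M T) A = ∫⁻ x in A, ENNReal.ofReal c ∂(M T) := by rw [setLIntegral_const]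
      _ ≤ _ := setLIntegral_mono' hA fun x hx => ENNReal.ofReal_le_ofReal (hlow x hx)
  have h2 := ENNReal.toReal_mono (measure_ne_top _ _) h1
  rwa [ENNReal.toReal_mul, ENNReal.toReal_ofReal hc] at h2

/-- the tails of the weighted measures -/
lemma nu_tail (S : Sys l M W C) {h : ℝ} (hh : 0 < h) : ∃ K : ℝ, 0 ≤ K ∧ ∀ᶠ T in l, ∀ n : ℕ,
    (nu M W h T).real {x : ℝ | (n : ℝ) ≤ |x|} ≤ K * DD n := by
  obtain ⟨B, hB⟩ := fl_bound (adm_tr hh)
  have hB0 : 0 ≤ B := by
    have := (abs_nonneg _).trans (hB 0)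
    simpa using this
  refine ⟨B * (2 * C), mul_nonneg hB0 (by linarith [S.hC]), ?_⟩
  filter_upwards [S.bdd] with T hT n
  have := S.fin T
  have := nu_fin S hh T
  have hm : MeasurableSet {x : ℝ | (n : ℝ) ≤ |x|} := measurableSet_le measurable_const continuous_abs.measurable
  have h1 : nu M W h T {x : ℝ | (n : ℝ) ≤ |x|} ≤ ENNReal.ofReal (B * (2 * C) * DD n) := by
    unfold nu
    rw [withDensity_apply _ hm]
    calc ∫⁻ x in {x : ℝ | (n : ℝ) ≤ |x|}, ENNReal.ofReal (fl (tr h) x * W T x) ∂(M T)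
        ≤ ∫⁻ x in {x : ℝ | (n : ℝ) ≤ |x|}, ENNReal.ofReal B * ENNReal.ofReal (1 / (1 + x ^ 2)) ∂(M T) := by
          refine lintegral_mono fun x => ?_
          simp only
          rw [← ENNReal.ofReal_mul hB0]
          apply ENNReal.ofReal_le_ofReal
          rw [mul_one_div]
          have h2 := hB x
          rw [abs_of_nonneg (F_nonneg hh x)] at h2
          have h3 : fl (tr h) x * W T x ≤ fl (tr h) x * 1 :=
            mul_le_mul_of_nonneg_left (S.Wle T x) (F_nonneg hh x)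
          linarith
      _ = ENNReal.ofReal B * ∫⁻ x in {x : ℝ | (n : ℝ) ≤ |x|}, ENNReal.ofReal (1 / (1 + x ^ 2)) ∂(M T) := by
          rw [lintegral_const_mul']
          exact ENNReal.ofReal_ne_top
      _ ≤ ENNReal.ofReal B * ENNReal.ofReal (2 * C * DD n) := by
          gcongr
          exact lint_le S.hC hT n
      _ = _ := by
          rw [← ENNReal.ofReal_mul hB0]
          congr 1
          ring
  exact ENNReal.toReal_le_of_le_ofReal (mul_nonneg (mul_nonneg hB0 (by linarith [S.hC])) (DD_nonneg n)) h1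

lemma nu_univ (S : Sys l M W C) {h : ℝ} (hh : 0 < h) : ∃ K : ℝ, 0 ≤ K ∧ ∀ᶠ T in l,
    (nu M W h T).real univ ≤ K := by
  obtain ⟨K, hK, h1⟩ := nu_tail S hh
  refine ⟨K * DD 0, mul_nonneg hK (DD_nonneg 0), ?_⟩
  filter_upwards [h1] with T hT
  have h2 := hT 0
  have h3 : {x : ℝ | ((0 : ℕ) : ℝ) ≤ |x|} = univ := by ext x; simp
  rwa [h3] at h2

/-- uniformly small windows -/
lemma unif (S : Sys l M W C) (hN : NoAt l M) (R ε : ℝ) (hε : 0 < ε) : ∃ δ : ℝ, 0 < δ ∧ ∀ᶠ T in l,
    ∀ y : ℝ, |y| ≤ R → (M T).real (Icc (y - δ) (y + δ) \ {0}) ≤ ε := by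
  classical
  choose d hd0 hd using fun x : ℝ => hN x (ε / 2) (by positivity)
  have hcov : ∀ x ∈ Icc (-R) R, Ioo (x - d x / 2) (x + d x / 2) ∈ 𝓝 x := fun x _ =>
    Ioo_mem_nhds (by linarith [hd0 x]) (by linarith [hd0 x])
  obtain ⟨t, -, ht⟩ := (isCompact_Icc (a := -R) (b := R)).elim_nhds_subcover _ hcov
  obtain ⟨δ, hδ, hmin⟩ : ∃ δ : ℝ, 0 < δ ∧ ∀ x ∈ t, δ ≤ d x / 2 := by
    rcases t.eq_empty_or_nonempty with rfl | hne
    · exact ⟨1, one_pos, fun x hx => absurd hx (Finset.notMem_empty x)⟩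
    · obtain ⟨x0, hx0, hx1⟩ := Finset.exists_min_image t (fun x => d x / 2) hne
      exact ⟨d x0 / 2, by linarith [hd0 x0], fun x hx => hx1 x hx⟩
  refine ⟨δ, hδ, ?_⟩
  have hev : ∀ᶠ T in l, ∀ x ∈ t, (M T).real (Icc (x - d x) (x + d x)) ≤ (if x = 0 then 1 else 0) + ε / 2 :=
    (Finset.eventually_all t).2 fun x _ => hd x
  filter_upwards [hev, S.zero (ε / 2) (by positivity)] with T h1 h2 y hy
  have := S.fin T
  rw [abs_le] at hy
  obtain ⟨x, hxt, hx⟩ := mem_iUnion₂.1 (ht ⟨hy.1, hy.2⟩)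
  have h3 := h1 x hxt
  have h4 := hmin x hxt
  have hsub : Icc (y - δ) (y + δ) \ {0} ⊆ Icc (x - d x) (x + d x) \ {0} := by
    refine sdiff_subset_sdiff_left (Icc_subset_Icc ?_ ?_)
    · linarith [hx.1]
    · linarith [hx.2]
  refine (measureReal_mono hsub).trans ?_
  by_cases hx0 : x = 0
  · rw [if_pos hx0] at h3
    have h5 : (0 : ℝ) ∈ Icc (x - d x) (x + d x) := by
      rw [hx0]
      constructor <;> linarith [hd0 0]
    have h6 : (M T).real (Icc (x - d x) (x + d x) \ {0}) + (M T).real {0} =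
        (M T).real (Icc (x - d x) (x + d x)) := by
      rw [← measureReal_union (disjoint_sdiff_left) (measurableSet_singleton 0)]
      congr 1
      rw [sdiff_union_of_subset (singleton_subset_iff.2 h5)]
    linarith
  · rw [if_neg hx0] at h3
    refine (measureReal_mono sdiff_subset).trans ?_
    linarith

/-- the transform of the weighted measure without the origin -/
lemma ct_split (S : Sys l M W C) {h : ℝ} (hh : 0 < h) (T b : ℝ) :
    ct (nu M W h T) b = (M T).real {0} + ct ((nu M W h T).restrict {0}ᶜ) b := by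
  have := S.fin T
  have := nu_fin S hh T
  unfold ct
  rw [← integral_add_compl (measurableSet_singleton (0 : ℝ)) (cos_integrable b)]
  congr 1
  rw [integral_singleton]
  have h1 : (nu M W h T).real {0} = (M T).real {0} := by
    refine le_antisymm (nu_le S hh T (measurableSet_singleton 0)) ?_
    have := nu_ge S hh T (measurableSet_singleton (0 : ℝ)) (c := 1) zero_le_one (fun x hx => by
      rw [mem_singleton_iff] at hx
      rw [hx, F_zero hh, S.W0, one_mul])
    rwa [one_mul] at this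
  rw [h1, mul_zero, Real.cos_zero, smul_eq_mul, mul_one]

/-- **no point masses: the mean square tends to zero.** -/
theorem up (S : Sys l M W C) (hN : NoAt l M) {h : ℝ} (hh : 0 < h) : MS l M W h := by
  intro ε hε
  obtain ⟨K, hK, hKT⟩ := nu_univ S hh
  obtain ⟨K', hK', hKT'⟩ := nu_tail S hh
  -- the constants
  obtain ⟨κ, hκ, hκ1⟩ : ∃ κ : ℝ, 0 < κ ∧ 2 * K * κ ≤ ε / 4 ∧ 2 * κ ^ 2 ≤ ε / 4 := by
    refine ⟨min (ε / (8 * (K + 1))) (min 1 (ε / 8)), by positivity, ?_, ?_⟩
    · have h1 : min (ε / (8 * (K + 1))) (min 1 (ε / 8)) ≤ ε / (8 * (K + 1)) := min_le_left _ _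
      have h2 : 2 * K * (ε / (8 * (K + 1))) ≤ ε / 4 := by
        rw [mul_div_assoc', div_le_div_iff₀ (by positivity) (by norm_num)]
        nlinarith
      exact (mul_le_mul_of_nonneg_left h1 (by positivity)).trans h2
    · have h1 : min (ε / (8 * (K + 1))) (min 1 (ε / 8)) ≤ min 1 (ε / 8) := min_le_right _ _
      have h2 : min (ε / (8 * (K + 1))) (min 1 (ε / 8)) ≤ 1 := h1.trans (min_le_left _ _)
      have h3 : min (ε / (8 * (K + 1))) (min 1 (ε / 8)) ≤ ε / 8 := h1.trans (min_le_right _ _)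
      have h4 : 0 ≤ min (ε / (8 * (K + 1))) (min 1 (ε / 8)) := by positivity
      nlinarith
  obtain ⟨n, hn⟩ : ∃ n : ℕ, 2 * K * (K' * DD n) ≤ ε / 4 := by
    have h1 : Tendsto (fun n => 2 * K * (K' * DD n)) atTop (𝓝 (2 * K * (K' * 0))) :=
      (DD_tendsto.const_mul K').const_mul (2 * K)
    rw [mul_zero, mul_zero] at h1
    obtain ⟨n, hn⟩ := (h1.eventually (ge_mem_nhds (show (0 : ℝ) < ε / 4 by positivity))).exists
    exact ⟨n, hn⟩
  obtain ⟨δ, hδ, hU⟩ := unif S hN n κ hκ
  obtain ⟨δ1, hδ1, hU1⟩ := hN 0 κ hκ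
  refine ⟨(8 * K ^ 2 / ε + 1) / δ + 1 / δ, by positivity, fun L hL => ?_⟩
  have hL0 : 0 < L := lt_of_lt_of_le (by positivity) hL
  filter_upwards [hKT, hKT', hU, hU1, S.zero κ hκ] with T g1 g2 g3 g4 g5
  have := S.fin T
  have hfi := nu_fin S hh T
  set ν' := (nu M W h T).restrict {0}ᶜ with hν'
  have k1 : ν'.real univ ≤ K := by
    rw [hν', measureReal_restrict_apply MeasurableSet.univ]
    exact (measureReal_mono (subset_univ _)).trans g1
  have k10 : 0 ≤ ν'.real univ := measureReal_nonneg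
  have k2 : ∀ y : ℝ, |y| ≤ (n : ℝ) → ν'.real (Icc (y - δ) (y + δ)) ≤ κ := by
    intro y hy
    rw [hν', measureReal_restrict_apply measurableSet_Icc, ← sdiff_eq]
    exact (nu_le S hh T (measurableSet_Icc.diff (measurableSet_singleton 0))).trans (g3 y hy)
  have k3 : ν'.real {x : ℝ | (n : ℝ) < |x|} ≤ K' * DD n := by
    rw [hν', measureReal_restrict_apply (measurableSet_lt measurable_const continuous_abs.measurable)]
    refine (measureReal_mono ?_).trans (g2 n)
    intro x hx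
    have hx1 : (n : ℝ) < |x| := hx.1
    exact le_of_lt hx1
  have k4 := wiener_up (ν := ν') hL0 hδ hκ.le k2 k3
  have k5 : ν'.real univ * (κ + ν'.real univ / (L * δ) ^ 2 + K' * DD n) ≤
      K * (κ + K / (L * δ) ^ 2 + K' * DD n) := by
    have : 0 ≤ K' * DD n := mul_nonneg hK' (DD_nonneg n)
    gcongr
  have k6 : 8 * K ^ 2 / ε + 1 ≤ L * δ := by
    have h1 : (8 * K ^ 2 / ε + 1) / δ ≤ L := by
      refine le_trans ?_ hL
      have : 0 < 1 / δ := by positivity
      linarith
    rwa [div_le_iff₀ hδ] at h1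
  have k7 : 2 * K * (K / (L * δ) ^ 2) ≤ ε / 4 := by
    have h0 : 0 ≤ 8 * K ^ 2 / ε := by positivity
    have h1 : 8 * K ^ 2 / ε ≤ (L * δ) ^ 2 := by nlinarith
    have h2 : 0 < (L * δ) ^ 2 := by positivity
    rw [div_le_iff₀ hε] at h1
    rw [mul_div_assoc', div_le_div_iff₀ h2 (by norm_num)]
    nlinarith
  have k8 : ∫ b, tr L b * (ct (nu M W h T) b - 1) ^ 2 ≤
      ∫ b, (2 * κ ^ 2 * tr L b + 2 * (tr L b * ct ν' b ^ 2)) := by
    have hcs : ∀ g : ℝ → ℝ, Continuous g → Integrable fun b => tr L b * g b := by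
      intro g hg
      refine Continuous.integrable_of_hasCompactSupport ?_ ?_
      · have := tr_cont L
        fun_prop
      · exact (adm_tr hL0).hcs.mul_right
    have hct : Continuous (ct (nu M W h T)) := ct_cont
    have hct' : Continuous (ct ν') := ct_cont
    refine integral_mono (hcs (fun b => (ct (nu M W h T) b - 1) ^ 2) (by fun_prop))
      (((tr_int hL0).const_mul _).add ((hcs (fun b => ct ν' b ^ 2) (by fun_prop)).const_mul _)) fun b => ?_
    simp only
    rw [ct_split S hh T b, ← hν']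
    have h1 : |(M T).real {0} - 1| ≤ κ := by
      rw [abs_le]
      constructor
      · linarith
      · rw [if_pos rfl] at g4
        have h2 : (M T).real {0} ≤ (M T).real (Icc (0 - δ1) (0 + δ1)) :=
          measureReal_mono (singleton_subset_iff.2 ⟨by linarith, by linarith⟩)
        linarith
    have h2 : ((M T).real {0} - 1) ^ 2 ≤ κ ^ 2 := by
      rw [← sq_abs]
      exact pow_le_pow_left₀ (abs_nonneg _) h1 2
    have h3 : ((M T).real {0} + ct ν' b - 1) ^ 2 ≤ 2 * κ ^ 2 + 2 * ct ν' b ^ 2 := by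
      nlinarith [sq_nonneg ((M T).real {0} - 1 - ct ν' b)]
    have h4 := mul_le_mul_of_nonneg_left h3 (tr_nonneg hL0 b)
    linarith
  refine k8.trans ?_
  have hct' : Continuous (ct ν') := ct_cont
  have i2 : Integrable fun b => tr L b * ct ν' b ^ 2 := by
    refine Continuous.integrable_of_hasCompactSupport ?_ ?_
    · have := tr_cont L
      fun_prop
    · exact (adm_tr hL0).hcs.mul_right
  rw [integral_add ((tr_int hL0).const_mul _) (i2.const_mul _), integral_const_mul, integral_const_mul,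
    int_tr1 hL0]
  have k9 := k4.trans k5
  have k11 : 2 * (K * (κ + K / (L * δ) ^ 2 + K' * DD n)) =
      2 * K * κ + 2 * K * (K / (L * δ) ^ 2) + 2 * K * (K' * DD n) := by ring
  linarith [hκ1.1, hκ1.2]

/-- **the mean square tends to zero: no point masses.** -/
theorem down (S : Sys l M W C) (hM : ∀ h : ℝ, 0 < h → MS l M W h) : NoAt l M := by
  have hpi := Real.pi_pos
  intro x₀ ε hε
  by_cases hx : x₀ = 0
  · -- the origin
    rw [if_pos hx, hx]
    obtain ⟨η, hη, hη1, hη2⟩ : ∃ η : ℝ, 0 < η ∧ η ≤ 1 / 2 ∧ (1 + η) ≤ (1 + ε) * (1 - η) ^ 3 := by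
      refine ⟨min (1 / 2) (ε / (8 * (1 + ε))), by positivity, min_le_left _ _, ?_⟩
      set η := min (1 / 2) (ε / (8 * (1 + ε))) with hη
      have h1 : η ≤ 1 / 2 := min_le_left _ _
      have h2 : η ≤ ε / (8 * (1 + ε)) := min_le_right _ _
      have h0 : 0 < η := by positivity
      rw [le_div_iff₀ (by positivity)] at h2
      have h3 : 1 - 3 * η ≤ (1 - η) ^ 3 := by nlinarith [sq_nonneg η]
      have h4 : (1 + ε) * (1 - 3 * η) ≤ (1 + ε) * (1 - η) ^ 3 :=
        mul_le_mul_of_nonneg_left h3 (by linarith)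
      nlinarith
    obtain ⟨L₀, hL₀, hLT⟩ := hM 1 one_pos (η ^ 2) (by positivity)
    set L := max L₀ 1 with hL
    have hL0 : 0 < L := by positivity
    have hL1 : 1 ≤ L := le_max_right _ _
    refine ⟨η / (Real.pi * L), by positivity, ?_⟩
    filter_upwards [hLT L (le_max_left _ _), S.Wlim 1 η hη] with T g1 g2
    have := S.fin T
    have hfi := nu_fin S one_pos T
    set ν := nu M W 1 T with hν
    have hct : Continuous (ct ν) := ct_cont
    have hδ1 : η / (Real.pi * L) ≤ 1 := by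
      rw [div_le_one (by positivity)]
      nlinarith [Real.pi_gt_three]
    -- near the origin
    have hnear : ∀ (N x : ℝ), 0 < N → N ≤ L → |x| ≤ η / (Real.pi * L) → 1 - η ≤ fl (tr N) x := by
      intro N x hN hNL hx
      have h1 : Real.pi * N * |x| ≤ η := by
        calc Real.pi * N * |x| ≤ Real.pi * L * (η / (Real.pi * L)) := by gcongr
          _ = η := by field_simp
      have h2 := F_low hN (h1.trans (by linarith))
      have h3 : (Real.pi * N * x) ^ 2 ≤ η ^ 2 := by
        rw [mul_pow, ← sq_abs x, ← mul_pow]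
        exact pow_le_pow_left₀ (by positivity) h1 2
      nlinarith
    have a1 : (∫ b, tr L b * (ct ν b - 1)) ≤ η := by
      have h1 := jensen hL0 (f := fun b => ct ν b - 1) (by fun_prop)
      have h2 := h1.trans g1
      exact abs_le_of_sq_le_sq' h2 hη.le |>.2
    have a2 : (∫ b, tr L b * (ct ν b - 1)) = (∫ x, fl (tr L) x ∂ν) - 1 := by
      have e : ∀ b, tr L b * (ct ν b - 1) = tr L b * ct ν b - tr L b := fun b => by ring
      simp_rw [e]
      rw [integral_sub (ct_int (tr_int hL0)) (tr_int hL0), int_tr1 hL0, ct_pair (tr_int hL0)]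
    have hmI : MeasurableSet (Icc (0 - η / (Real.pi * L)) (0 + η / (Real.pi * L))) := measurableSet_Icc
    have hFi : Integrable (fun x => fl (tr L) x) ν := by
      refine Integrable.of_bound (C := 1) (fl_cont (tr_int hL0)).aestronglyMeasurable (ae_of_all _ fun x => ?_)
      rw [Real.norm_eq_abs, abs_of_nonneg (F_nonneg hL0 _)]
      exact F_le_one hL0 _
    have a3 : (1 - η) * ν.real (Icc (0 - η / (Real.pi * L)) (0 + η / (Real.pi * L))) ≤ ∫ x, fl (tr L) x ∂ν := by
      have h1 : ∫ x in Icc (0 - η / (Real.pi * L)) (0 + η / (Real.pi * L)), (1 - η) ∂ν ≤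
          ∫ x in Icc (0 - η / (Real.pi * L)) (0 + η / (Real.pi * L)), fl (tr L) x ∂ν := by
        refine setIntegral_mono_on (integrable_const _).integrableOn hFi.integrableOn hmI fun x hx => ?_
        refine hnear L x hL0 le_rfl ?_
        rw [abs_le]
        constructor <;> linarith [hx.1, hx.2]
      rw [setIntegral_const, smul_eq_mul] at h1
      have h2 := setIntegral_le_integral (s := Icc (0 - η / (Real.pi * L)) (0 + η / (Real.pi * L))) hFi
        (ae_of_all _ fun x => F_nonneg hL0 x)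
      linarith
    have a4 : (1 - η) ^ 2 * (M T).real (Icc (0 - η / (Real.pi * L)) (0 + η / (Real.pi * L))) ≤
        ν.real (Icc (0 - η / (Real.pi * L)) (0 + η / (Real.pi * L))) := by
      refine nu_ge S one_pos T hmI (by positivity) fun x hx => ?_
      have h1 : |x| ≤ η / (Real.pi * L) := by
        rw [abs_le]
        constructor <;> linarith [hx.1, hx.2]
      have h2 := hnear 1 x one_pos hL1 h1
      have h3 := g2 x (h1.trans hδ1)
      rw [sq]
      exact mul_le_mul h2 h3 (by linarith) (F_nonneg one_pos x)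
    set m := (M T).real (Icc (0 - η / (Real.pi * L)) (0 + η / (Real.pi * L))) with hm
    have a5 : (1 - η) ^ 3 * m ≤ 1 + η := by
      have h1 := mul_le_mul_of_nonneg_left a4 (show 0 ≤ 1 - η by linarith)
      have e : (1 - η) ^ 3 * m = (1 - η) * ((1 - η) ^ 2 * m) := by ring
      rw [a2] at a1
      linarith
    have a6 : (1 - η) ^ 3 * m ≤ (1 - η) ^ 3 * (1 + ε) := by linarith
    have a7 : 0 < (1 - η) ^ 3 := by
      have : 0 < 1 - η := by linarith
      positivity
    exact le_of_mul_le_mul_left a6 a7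
  · -- another point
    rw [if_neg hx, zero_add]
    have hx0 : 0 < |x₀| := abs_pos.2 hx
    set h := 1 / (2 * Real.pi * |x₀|) with hh
    have hh0 : 0 < h := by positivity
    obtain ⟨L₀, hL₀, hLT⟩ := hM h hh0 ((ε / 32) ^ 2) (by positivity)
    obtain ⟨L, hL1, hL2, hL3, hL4⟩ : ∃ L : ℝ, L₀ ≤ L ∧ 1 ≤ L ∧ 1 / (Real.pi * L) ≤ |x₀| ∧
        1 / (L * |x₀|) ^ 2 ≤ ε / 32 := by
      refine ⟨max L₀ (max 1 ((1 + 32 / ε) / |x₀|)), le_max_left _ _, (le_max_left _ _).trans (le_max_right _ _), ?_, ?_⟩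
      · have h1 : (1 + 32 / ε) / |x₀| ≤ max L₀ (max 1 ((1 + 32 / ε) / |x₀|)) :=
          (le_max_right _ _).trans (le_max_right _ _)
        rw [div_le_iff₀ hx0] at h1
        rw [div_le_iff₀ (by positivity)]
        have h2 : 0 < 32 / ε := by positivity
        nlinarith [Real.pi_gt_three]
      · have h1 : (1 + 32 / ε) / |x₀| ≤ max L₀ (max 1 ((1 + 32 / ε) / |x₀|)) :=
          (le_max_right _ _).trans (le_max_right _ _)
        rw [div_le_iff₀ hx0] at h1
        have h2 : 0 < 32 / ε := by positivity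
        have h3 : 32 / ε ≤ (max L₀ (max 1 ((1 + 32 / ε) / |x₀|)) * |x₀|) ^ 2 := by nlinarith
        have h4 := one_div_le_one_div_of_le h2 h3
        rwa [one_div_div] at h4
    have hL0 : 0 < L := by linarith
    refine ⟨1 / (Real.pi * L), by positivity, ?_⟩
    filter_upwards [hLT L hL1, S.Wlim (2 * |x₀|) (1 / 2) (by norm_num)] with T g1 g2
    have := S.fin T
    have hfi := nu_fin S hh0 T
    have b1 := wiener_low (ν := nu M W h T) (x₀ := x₀) hL0 1
    have b2 : √(∫ b, tr L b * (ct (nu M W h T) b - 1) ^ 2) ≤ ε / 32 := by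
      rw [show ε / 32 = √((ε / 32) ^ 2) from (Real.sqrt_sq (by positivity)).symm]
      exact Real.sqrt_le_sqrt g1
    have b3 : fl (tr L) x₀ ≤ ε / 32 := by
      refine (F_off hL0 hx0 le_rfl).trans hL4
    have b4 : (1 / 4) * (M T).real (Icc (x₀ - 1 / (Real.pi * L)) (x₀ + 1 / (Real.pi * L))) ≤
        (nu M W h T).real (Icc (x₀ - 1 / (Real.pi * L)) (x₀ + 1 / (Real.pi * L))) := by
      refine nu_ge S hh0 T measurableSet_Icc (by norm_num) fun x hx => ?_
      have h1 : |x| ≤ 2 * |x₀| := by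
        have h2 : |x - x₀| ≤ |x₀| := by
          refine le_trans ?_ hL3
          rw [abs_le]
          constructor <;> linarith [hx.1, hx.2]
        calc |x| = |(x - x₀) + x₀| := by ring_nf
          _ ≤ |x - x₀| + |x₀| := abs_add_le _ _
          _ ≤ _ := by linarith
      have h3 := g2 x h1
      have h4 : Real.pi * h * |x| ≤ 1 := by
        calc Real.pi * h * |x| ≤ Real.pi * h * (2 * |x₀|) := by gcongr
          _ = 1 := by rw [hh]; field_simp
      have h5 := F_low hh0 h4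
      have h6 : (Real.pi * h * x) ^ 2 ≤ 1 := by
        rw [mul_pow, ← sq_abs x, ← mul_pow]
        exact pow_le_one₀ (by positivity) h4
      have h7 : 1 / 2 ≤ fl (tr h) x := by linarith
      have h8 : (1 / 2 : ℝ) ≤ W T x := by linarith
      calc (1 / 4 : ℝ) = 1 / 2 * (1 / 2) := by norm_num
        _ ≤ _ := mul_le_mul h7 h8 (by norm_num) (by linarith)
    rw [abs_one, one_mul] at b1
    linarith

end Pool.Agent.Zk22.WF
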