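import Pool.Agent.Zk22.WF.B

/-! # Plain averages and averages in measure -/

set_option autoImplicit false

open MeasureTheory Set Filter Topology

namespace Pool.Agent.Zk22.WF

open Pool.Agent.Y749.Rig

variable {l : Filter ℝ} {M : ℝ → Measure ℝ} {W : ℝ → ℝ → ℝ} {C : ℝ}

/-- the plain mean square tends to zero -/
def PL (l : Filter ℝ) (M : ℝ → Measure ℝ) (W : ℝ → ℝ → ℝ) (h : ℝ) : Prop := ∀ ε : ℝ, 0 < ε →
  ∃ B₀ : ℝ, 0 < B₀ ∧ ∀ B : ℝ, B₀ ≤ B → ∀ᶠ T in l,
    ∫ b in (0 : ℝ)..B, (ct (nu M W h T) b - 1) ^ 2 ≤ ε * B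

/-- convergence to one in measure -/
def IM (l : Filter ℝ) (M : ℝ → Measure ℝ) (W : ℝ → ℝ → ℝ) (h : ℝ) : Prop := ∀ κ ε : ℝ, 0 < κ → 0 < ε →
  ∃ B₀ : ℝ, 0 < B₀ ∧ ∀ B : ℝ, B₀ ≤ B → ∀ᶠ T in l,
    volume.real {b : ℝ | b ∈ Icc 0 B ∧ κ < |ct (nu M W h T) b - 1|} ≤ ε * B

lemma ct_even (ν : Measure ℝ) (b : ℝ) : ct ν (-b) = ct ν b := by
  unfold ct
  refine integral_congr_ae (ae_of_all _ fun x => ?_)
  simp only
  rw [show 2 * Real.pi * -b * x = -(2 * Real.pi * b * x) by ring, Real.cos_neg]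

lemma tr_le {L : ℝ} (hL : 0 < L) (x : ℝ) : tr L x ≤ 1 / L := by
  unfold tr
  refine div_le_div_of_nonneg_right (max_le zero_le_one ?_) hL.le
  have : 0 ≤ |x| / L := by positivity
  linarith

lemma tr_mul_int {L : ℝ} (hL : 0 < L) {g : ℝ → ℝ} (hg : Continuous g) : Integrable fun b => tr L b * g b := by
  refine Continuous.integrable_of_hasCompactSupport ?_ ?_
  · have := tr_cont L
    fun_prop
  · exact (adm_tr hL).hcs.mul_right

/-- the plain mean is bounded by the Fejer mean of double length -/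
lemma plain_le {B : ℝ} (hB : 0 < B) {g : ℝ → ℝ} (hg : Continuous g) (h0 : ∀ b, 0 ≤ g b) :
    ∫ b in (0 : ℝ)..B, g b ≤ 4 * B * ∫ b, tr (2 * B) b * g b := by
  have h2B : 0 < 2 * B := by linarith
  have h1 : ∫ b in Ioc 0 B, (1 / (4 * B)) * g b ≤ ∫ b in Ioc 0 B, tr (2 * B) b * g b := by
    refine setIntegral_mono_on ?_ (tr_mul_int h2B hg).integrableOn measurableSet_Ioc fun b hb => ?_
    · exact ((hg.integrableOn_Icc (a := 0) (b := B)).mono_set Ioc_subset_Icc_self).const_mul _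
    · refine mul_le_mul_of_nonneg_right ?_ (h0 b)
      rw [tr_eq h2B hb.1.le (by linarith [hb.2])]
      have h3 : b / (2 * B) ≤ 1 / 2 := by
        rw [div_le_div_iff₀ h2B (by norm_num)]
        linarith [hb.2]
      rw [div_le_div_iff₀ (by positivity) h2B]
      nlinarith
  have h2 := setIntegral_le_integral (s := Ioc 0 B) (tr_mul_int h2B hg)
    (ae_of_all _ fun b => mul_nonneg (tr_nonneg h2B b) (h0 b))
  rw [integral_const_mul] at h1
  rw [intervalIntegral.integral_of_le hB.le]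
  have h3 : 1 / (4 * B) * ∫ b in Ioc 0 B, g b ≤ ∫ b, tr (2 * B) b * g b := h1.trans h2
  rw [one_div, inv_mul_le_iff₀ (by positivity)] at h3
  exact h3

/-- the Fejer mean is bounded by the plain mean -/
lemma fejer_le {L : ℝ} (hL : 0 < L) {g : ℝ → ℝ} (hg : Continuous g) (h0 : ∀ b, 0 ≤ g b) (he : ∀ b, g (-b) = g b) :
    ∫ b, tr L b * g b ≤ 2 / L * ∫ b in (0 : ℝ)..L, g b := by
  rw [int_supp hL (fun x hx => by rw [tr_supp hL x hx, zero_mul])]
  have hc : Continuous fun b => tr L b * g b := (tr_cont L).mul hg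
  rw [← intervalIntegral.integral_add_adjacent_intervals (b := 0) (hc.intervalIntegrable _ _)
    (hc.intervalIntegrable _ _)]
  have h5 : ∫ α in (-L)..0, tr L α * g α = ∫ α in (0 : ℝ)..L, tr L α * g α := by
    have := intervalIntegral.integral_comp_neg (a := (0 : ℝ)) (b := L) fun α => tr L α * g α
    rw [neg_zero] at this
    rw [← this]
    refine intervalIntegral.integral_congr fun α _ => ?_
    show tr L (-α) * g (-α) = tr L α * g α
    rw [tr_even, he]
  have h6 : ∫ α in (0 : ℝ)..L, tr L α * g α ≤ ∫ α in (0 : ℝ)..L, 1 / L * g α := by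
    refine intervalIntegral.integral_mono_on hL.le (hc.intervalIntegrable _ _)
      ((hg.const_mul (1 / L)).intervalIntegrable _ _) fun b _ => ?_
    exact mul_le_mul_of_nonneg_right (tr_le hL b) (h0 b)
  rw [intervalIntegral.integral_const_mul] at h6
  rw [h5]
  have e : 2 / L * ∫ b in (0 : ℝ)..L, g b = 2 * (1 / L * ∫ b in (0 : ℝ)..L, g b) := by ring
  rw [e]
  linarith

lemma sq_cont (S : Sys l M W C) {h : ℝ} (hh : 0 < h) (T : ℝ) :
    Continuous fun b => (ct (nu M W h T) b - 1) ^ 2 := by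
  have := nu_fin S hh T
  have h1 : Continuous (ct (nu M W h T)) := ct_cont
  fun_prop

theorem pl_of_ms (S : Sys l M W C) {h : ℝ} (hh : 0 < h) (hm : MS l M W h) : PL l M W h := by
  intro ε hε
  obtain ⟨L₀, hL₀, h1⟩ := hm (ε / 4) (by positivity)
  refine ⟨L₀, hL₀, fun B hB => ?_⟩
  filter_upwards [h1 (2 * B) (by linarith)] with T hT
  have hB0 : 0 < B := by linarith
  have h2 := plain_le hB0 (sq_cont S hh T) fun b => sq_nonneg _
  nlinarith

theorem ms_of_pl (S : Sys l M W C) {h : ℝ} (hh : 0 < h) (hm : PL l M W h) : MS l M W h := by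
  intro ε hε
  obtain ⟨L₀, hL₀, h1⟩ := hm (ε / 2) (by positivity)
  refine ⟨L₀, hL₀, fun L hL => ?_⟩
  filter_upwards [h1 L hL] with T hT
  have hL0 : 0 < L := by linarith
  have h2 := fejer_le hL0 (sq_cont S hh T) (fun b => sq_nonneg _) fun b => by rw [ct_even]
  refine h2.trans ?_
  rw [div_mul_eq_mul_div, div_le_iff₀ hL0]
  linarith

lemma meas_set (S : Sys l M W C) {h : ℝ} (hh : 0 < h) (T κ B : ℝ) :
    MeasurableSet {b : ℝ | b ∈ Icc 0 B ∧ κ < |ct (nu M W h T) b - 1|} := by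
  have := nu_fin S hh T
  have h1 : Continuous (ct (nu M W h T)) := ct_cont
  have h2 : MeasurableSet {b : ℝ | κ < |ct (nu M W h T) b - 1|} :=
    measurableSet_lt measurable_const ((h1.sub continuous_const).abs.measurable)
  exact measurableSet_Icc.inter h2

theorem im_of_pl (S : Sys l M W C) {h : ℝ} (hh : 0 < h) (hm : PL l M W h) : IM l M W h := by
  intro κ ε hκ hε
  obtain ⟨B₀, hB₀, h1⟩ := hm (ε * κ ^ 2) (by positivity)
  refine ⟨B₀, hB₀, fun B hB => ?_⟩
  filter_upwards [h1 B hB] with T hT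
  have hB0 : 0 < B := by linarith
  have hms := meas_set S hh T κ B
  have hsub : {b : ℝ | b ∈ Icc 0 B ∧ κ < |ct (nu M W h T) b - 1|} ⊆ Icc 0 B := fun b hb => hb.1
  have hfin : volume {b : ℝ | b ∈ Icc 0 B ∧ κ < |ct (nu M W h T) b - 1|} < ⊤ :=
    (measure_mono hsub).trans_lt (by rw [Real.volume_Icc]; exact ENNReal.ofReal_lt_top)
  have hgi : IntegrableOn (fun b => (ct (nu M W h T) b - 1) ^ 2) (Icc 0 B) :=
    (sq_cont S hh T).integrableOn_Icc
  have h2 : ∫ b in {b : ℝ | b ∈ Icc 0 B ∧ κ < |ct (nu M W h T) b - 1|}, κ ^ 2 ≤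
      ∫ b in {b : ℝ | b ∈ Icc 0 B ∧ κ < |ct (nu M W h T) b - 1|}, (ct (nu M W h T) b - 1) ^ 2 := by
    refine setIntegral_mono_on (integrableOn_const hfin.ne) (hgi.mono_set hsub) hms fun b hb => ?_
    rw [← sq_abs (ct (nu M W h T) b - 1)]
    exact pow_le_pow_left₀ hκ.le hb.2.le 2
  have h3 : ∫ b in {b : ℝ | b ∈ Icc 0 B ∧ κ < |ct (nu M W h T) b - 1|}, (ct (nu M W h T) b - 1) ^ 2 ≤
      ∫ b in Icc 0 B, (ct (nu M W h T) b - 1) ^ 2 :=
    setIntegral_mono_set hgi (ae_of_all _ fun b => sq_nonneg _) hsub.eventuallyLE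
  rw [integral_Icc_eq_integral_Ioc, ← intervalIntegral.integral_of_le hB0.le] at h3
  rw [setIntegral_const, smul_eq_mul] at h2
  have h4 : volume.real {b : ℝ | b ∈ Icc 0 B ∧ κ < |ct (nu M W h T) b - 1|} * κ ^ 2 ≤ ε * B * κ ^ 2 := by
    linarith
  exact le_of_mul_le_mul_right h4 (by positivity)

theorem pl_of_im (S : Sys l M W C) {h : ℝ} (hh : 0 < h) (hm : IM l M W h) : PL l M W h := by
  intro ε hε
  obtain ⟨K, hK, hKT⟩ := nu_univ S hh
  obtain ⟨κ, hκ, hκ1⟩ : ∃ κ : ℝ, 0 < κ ∧ κ ^ 2 ≤ ε / 2 := by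
    refine ⟨√(ε / 2), Real.sqrt_pos.2 (by positivity), ?_⟩
    rw [Real.sq_sqrt (by positivity)]
  obtain ⟨B₀, hB₀, h1⟩ := hm κ (ε / (2 * (K + 1) ^ 2)) hκ (by positivity)
  refine ⟨B₀, hB₀, fun B hB => ?_⟩
  filter_upwards [h1 B hB, hKT] with T hT g1
  have hB0 : 0 < B := by linarith
  have hfi := nu_fin S hh T
  have hms := meas_set S hh T κ B
  set A := {b : ℝ | b ∈ Icc 0 B ∧ κ < |ct (nu M W h T) b - 1|} with hA
  have hsub : A ⊆ Icc 0 B := fun b hb => hb.1
  have hfin : volume A < ⊤ :=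
    (measure_mono hsub).trans_lt (by rw [Real.volume_Icc]; exact ENNReal.ofReal_lt_top)
  have hpt : ∀ b ∈ Icc (0 : ℝ) B, (ct (nu M W h T) b - 1) ^ 2 ≤ κ ^ 2 + A.indicator (fun _ => (K + 1) ^ 2) b := by
    intro b hb
    by_cases hbA : b ∈ A
    · rw [indicator_of_mem hbA]
      have h2 := ct_le (ν := nu M W h T) b
      have h3 : |ct (nu M W h T) b - 1| ≤ K + 1 := by
        refine (abs_sub _ _).trans ?_
        rw [abs_one]
        linarith
      rw [← sq_abs]
      have h4 := pow_le_pow_left₀ (abs_nonneg _) h3 2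
      nlinarith [sq_nonneg κ]
    · rw [indicator_of_notMem hbA, add_zero, ← sq_abs]
      refine pow_le_pow_left₀ (abs_nonneg _) ?_ 2
      by_contra hcon
      exact hbA ⟨hb, not_le.1 hcon⟩
  have hi : IntegrableOn (fun b => κ ^ 2 + A.indicator (fun _ => (K + 1) ^ 2) b) (Icc 0 B) := by
    refine (integrableOn_const (by rw [Real.volume_Icc]; exact ENNReal.ofReal_ne_top)).add ?_
    refine Integrable.integrableOn ?_
    rw [integrable_indicator_iff hms]
    exact integrableOn_const hfin.ne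
  rw [intervalIntegral.integral_of_le hB0.le, ← integral_Icc_eq_integral_Ioc]
  refine (setIntegral_mono_on (sq_cont S hh T).integrableOn_Icc hi measurableSet_Icc hpt).trans ?_
  have i1 : Integrable (fun _ : ℝ => κ ^ 2) (volume.restrict (Icc 0 B)) :=
    integrableOn_const (by rw [Real.volume_Icc]; exact ENNReal.ofReal_ne_top)
  have i2 : Integrable (A.indicator fun _ : ℝ => (K + 1) ^ 2) (volume.restrict (Icc 0 B)) := by
    refine Integrable.integrableOn ?_
    rw [integrable_indicator_iff hms]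
    exact integrableOn_const hfin.ne
  rw [integral_add i1 i2, setIntegral_const, setIntegral_indicator hms, setIntegral_const,
    inter_eq_self_of_subset_right hsub]
  simp only [smul_eq_mul]
  rw [Real.volume_real_Icc_of_le hB0.le, sub_zero]
  have h5 : volume.real A * (K + 1) ^ 2 ≤ ε / (2 * (K + 1) ^ 2) * B * (K + 1) ^ 2 :=
    mul_le_mul_of_nonneg_right hT (by positivity)
  have h6 : ε / (2 * (K + 1) ^ 2) * B * (K + 1) ^ 2 = ε / 2 * B := by
    field_simp
  rw [h6] at h5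
  nlinarith

/-- **The equivalence.** -/
theorem tfae (S : Sys l M W C) : List.TFAE [NoAt l M, ∀ h : ℝ, 0 < h → PL l M W h, ∀ h : ℝ, 0 < h → IM l M W h] := by
  tfae_have 1 → 2 := fun h1 h hh => pl_of_ms S hh (up S h1 hh)
  tfae_have 2 → 1 := fun h1 => down S fun h hh => ms_of_pl S hh (h1 h hh)
  tfae_have 2 → 3 := fun h1 h hh => im_of_pl S hh (h1 h hh)
  tfae_have 3 → 2 := fun h1 h hh => pl_of_im S hh (h1 h hh)
  tfae_finish

end Pool.Agent.Zk22.WF
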