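import Pool.Agent.Zk22.WF.A

/-! # Window averages and local Fejer means -/

set_option autoImplicit false

open MeasureTheory Set Filter Topology

namespace Pool.Agent.Zk22.WF

open Pool.Agent.Y749.Rig

/-- window average -/
noncomputable def wa (h : ℝ) (g : ℝ → ℝ) (b : ℝ) : ℝ := 1 / (2 * h) * ∫ α in (b - h)..(b + h), g α

/-- local Fejer mean -/
noncomputable def fa (h : ℝ) (g : ℝ → ℝ) (b : ℝ) : ℝ := 1 / h ^ 2 * ∫ t in (-h)..h, (h - |t|) * g (b + t)

/-- mean square convergence of a family of functions -/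
def Msq (l : Filter ℝ) (f : ℝ → ℝ → ℝ) : Prop := ∀ ε : ℝ, 0 < ε →
  ∃ B₀ : ℝ, 0 < B₀ ∧ ∀ B : ℝ, B₀ ≤ B → ∀ᶠ T in l, ∫ b in (0 : ℝ)..B, (f T b - 1) ^ 2 ≤ ε * B

/-- convergence in measure of a family of functions -/
def Mea (l : Filter ℝ) (f : ℝ → ℝ → ℝ) : Prop := ∀ κ ε : ℝ, 0 < κ → 0 < ε →
  ∃ B₀ : ℝ, 0 < B₀ ∧ ∀ B : ℝ, B₀ ≤ B → ∀ᶠ T in l,
    volume.real {b : ℝ | b ∈ Icc 0 B ∧ κ < |f T b - 1|} ≤ ε * B

lemma meas_set' {f : ℝ → ℝ} (hf : Continuous f) (κ B : ℝ) :
    MeasurableSet {b : ℝ | b ∈ Icc 0 B ∧ κ < |f b - 1|} := by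
  have h2 : MeasurableSet {b : ℝ | κ < |f b - 1|} :=
    measurableSet_lt measurable_const ((hf.sub continuous_const).abs.measurable)
  exact measurableSet_Icc.inter h2

theorem mea_of_msq {l : Filter ℝ} {f : ℝ → ℝ → ℝ} (hf : ∀ T, Continuous (f T)) (hm : Msq l f) : Mea l f := by
  intro κ ε hκ hε
  obtain ⟨B₀, hB₀, h1⟩ := hm (ε * κ ^ 2) (by positivity)
  refine ⟨B₀, hB₀, fun B hB => ?_⟩
  filter_upwards [h1 B hB] with T hT
  have hB0 : 0 < B := by linarith
  have hms := meas_set' (hf T) κ B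
  have hsub : {b : ℝ | b ∈ Icc 0 B ∧ κ < |f T b - 1|} ⊆ Icc 0 B := fun b hb => hb.1
  have hfin : volume {b : ℝ | b ∈ Icc 0 B ∧ κ < |f T b - 1|} < ⊤ :=
    (measure_mono hsub).trans_lt (by rw [Real.volume_Icc]; exact ENNReal.ofReal_lt_top)
  have hc : Continuous fun b => (f T b - 1) ^ 2 := ((hf T).sub continuous_const).pow 2
  have hgi : IntegrableOn (fun b => (f T b - 1) ^ 2) (Icc 0 B) := hc.integrableOn_Icc
  have h2 : ∫ b in {b : ℝ | b ∈ Icc 0 B ∧ κ < |f T b - 1|}, κ ^ 2 ≤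
      ∫ b in {b : ℝ | b ∈ Icc 0 B ∧ κ < |f T b - 1|}, (f T b - 1) ^ 2 := by
    refine setIntegral_mono_on (integrableOn_const hfin.ne) (hgi.mono_set hsub) hms fun b hb => ?_
    rw [← sq_abs (f T b - 1)]
    exact pow_le_pow_left₀ hκ.le hb.2.le 2
  have h3 : ∫ b in {b : ℝ | b ∈ Icc 0 B ∧ κ < |f T b - 1|}, (f T b - 1) ^ 2 ≤
      ∫ b in Icc 0 B, (f T b - 1) ^ 2 :=
    setIntegral_mono_set hgi (ae_of_all _ fun b => sq_nonneg _) hsub.eventuallyLE
  rw [integral_Icc_eq_integral_Ioc, ← intervalIntegral.integral_of_le hB0.le] at h3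
  rw [setIntegral_const, smul_eq_mul] at h2
  have h4 : volume.real {b : ℝ | b ∈ Icc 0 B ∧ κ < |f T b - 1|} * κ ^ 2 ≤ ε * B * κ ^ 2 := by
    linarith
  exact le_of_mul_le_mul_right h4 (by positivity)

theorem msq_of_mea {l : Filter ℝ} {f : ℝ → ℝ → ℝ} (hf : ∀ T, Continuous (f T)) {K : ℝ} (hK : 0 < K)
    (hb : ∀ᶠ T in l, ∀ b, |f T b - 1| ≤ K) (hm : Mea l f) : Msq l f := by
  intro ε hε
  obtain ⟨κ, hκ, hκ1⟩ : ∃ κ : ℝ, 0 < κ ∧ κ ^ 2 ≤ ε / 2 := by
    refine ⟨√(ε / 2), Real.sqrt_pos.2 (by positivity), ?_⟩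
    rw [Real.sq_sqrt (by positivity)]
  obtain ⟨B₀, hB₀, h1⟩ := hm κ (ε / (2 * K ^ 2)) hκ (by positivity)
  refine ⟨B₀, hB₀, fun B hB => ?_⟩
  filter_upwards [h1 B hB, hb] with T hT g1
  have hB0 : 0 < B := by linarith
  have hms := meas_set' (hf T) κ B
  set A := {b : ℝ | b ∈ Icc 0 B ∧ κ < |f T b - 1|} with hA
  have hsub : A ⊆ Icc 0 B := fun b hb => hb.1
  have hfin : volume A < ⊤ :=
    (measure_mono hsub).trans_lt (by rw [Real.volume_Icc]; exact ENNReal.ofReal_lt_top)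
  have hc : Continuous fun b => (f T b - 1) ^ 2 := ((hf T).sub continuous_const).pow 2
  have hpt : ∀ b ∈ Icc (0 : ℝ) B, (f T b - 1) ^ 2 ≤ κ ^ 2 + A.indicator (fun _ => K ^ 2) b := by
    intro b hb
    by_cases hbA : b ∈ A
    · rw [indicator_of_mem hbA, ← sq_abs]
      have h4 := pow_le_pow_left₀ (abs_nonneg _) (g1 b) 2
      nlinarith [sq_nonneg κ]
    · rw [indicator_of_notMem hbA, add_zero, ← sq_abs]
      refine pow_le_pow_left₀ (abs_nonneg _) ?_ 2
      by_contra hcon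
      exact hbA ⟨hb, not_le.1 hcon⟩
  have i1 : Integrable (fun _ : ℝ => κ ^ 2) (volume.restrict (Icc 0 B)) :=
    integrableOn_const (by rw [Real.volume_Icc]; exact ENNReal.ofReal_ne_top)
  have i2 : Integrable (A.indicator fun _ : ℝ => K ^ 2) (volume.restrict (Icc 0 B)) := by
    refine Integrable.integrableOn ?_
    rw [integrable_indicator_iff hms]
    exact integrableOn_const hfin.ne
  have hi : IntegrableOn (fun b => κ ^ 2 + A.indicator (fun _ => K ^ 2) b) (Icc 0 B) := i1.add i2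
  rw [intervalIntegral.integral_of_le hB0.le, ← integral_Icc_eq_integral_Ioc]
  refine (setIntegral_mono_on hc.integrableOn_Icc hi measurableSet_Icc hpt).trans ?_
  rw [integral_add i1 i2, setIntegral_const, setIntegral_indicator hms, setIntegral_const,
    inter_eq_self_of_subset_right hsub]
  simp only [smul_eq_mul]
  rw [Real.volume_real_Icc_of_le hB0.le, sub_zero]
  have h5 : volume.real A * K ^ 2 ≤ ε / (2 * K ^ 2) * B * K ^ 2 :=
    mul_le_mul_of_nonneg_right hT (by positivity)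
  have h6 : ε / (2 * K ^ 2) * B * K ^ 2 = ε / 2 * B := by
    field_simp
  rw [h6] at h5
  nlinarith

section
variable {g : ℝ → ℝ}

lemma wa_sub (h : ℝ) (g : ℝ → ℝ) (b : ℝ) : wa h g b = 1 / (2 * h) * ∫ t in (-h)..h, g (b + t) := by
  unfold wa
  rw [intervalIntegral.integral_comp_add_left (fun x => g x) b]
  rw [show b + -h = b - h by ring]

lemma wa_cont (hg : Continuous g) (h : ℝ) : Continuous (wa h g) := by
  have e : wa h g = fun b => 1 / (2 * h) * ∫ t in (-h)..h, g (b + t) := funext fun b => wa_sub h g b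
  rw [e]
  refine continuous_const.mul (intervalIntegral.continuous_parametric_intervalIntegral_of_continuous' ?_ _ _)
  exact hg.comp (continuous_fst.add continuous_snd)

lemma fa_cont (hg : Continuous g) (h : ℝ) : Continuous (fa h g) := by
  unfold fa
  refine continuous_const.mul (intervalIntegral.continuous_parametric_intervalIntegral_of_continuous' ?_ _ _)
  have : Continuous fun p : ℝ × ℝ => (h - |p.2|) * g (p.1 + p.2) := by fun_prop
  exact this

lemma int_nonpos {f : ℝ → ℝ} {a b : ℝ} (hab : a ≤ b) (h : ∀ t ∈ Icc a b, f t ≤ 0) : ∫ t in a..b, f t ≤ 0 := by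
  have h1 := intervalIntegral.integral_nonneg (μ := volume) hab (f := fun t => - f t) (fun t ht => by linarith [h t ht])
  rw [intervalIntegral.integral_neg] at h1
  linarith

/-- the differences of hats -/
lemma hat_low (hg : Continuous g) (h0 : ∀ x, 0 ≤ g x) {r R : ℝ} (hr : 0 < r) (hR : r < R) :
    (R - r) * ∫ t in (-r)..r, g t ≤ (∫ t in (-R)..R, (R - |t|) * g t) - ∫ t in (-r)..r, (r - |t|) * g t := by
  have hc : ∀ s : ℝ, Continuous fun t : ℝ => (s - |t|) * g t := fun s => by fun_prop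
  have h1 : ∫ t in (-r)..r, (R - |t|) * g t ≤ ∫ t in (-R)..R, (R - |t|) * g t := by
    refine intervalIntegral.integral_mono_interval (by linarith) (by linarith) (by linarith) ?_
      ((hc R).intervalIntegrable _ _)
    refine (ae_restrict_iff' measurableSet_Ioc).2 (ae_of_all _ fun t ht => ?_)
    have h2 : |t| ≤ R := abs_le.2 ⟨ht.1.le, ht.2⟩
    exact mul_nonneg (by linarith) (h0 t)
  have h2 : ∫ t in (-r)..r, (R - |t|) * g t =
      (R - r) * (∫ t in (-r)..r, g t) + ∫ t in (-r)..r, (r - |t|) * g t := by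
    rw [← intervalIntegral.integral_const_mul, ← intervalIntegral.integral_add
      ((hg.const_mul (R - r)).intervalIntegrable _ _) ((hc r).intervalIntegrable _ _)]
    refine intervalIntegral.integral_congr fun t _ => ?_
    show (R - |t|) * g t = (R - r) * g t + (r - |t|) * g t
    ring
  linarith

lemma hat_up (hg : Continuous g) (h0 : ∀ x, 0 ≤ g x) {r R : ℝ} (hr : 0 < r) (hR : r < R) :
    (∫ t in (-R)..R, (R - |t|) * g t) - (∫ t in (-r)..r, (r - |t|) * g t) ≤ (R - r) * ∫ t in (-R)..R, g t := by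
  have hc : ∀ s : ℝ, Continuous fun t : ℝ => (s - |t|) * g t := fun s => by fun_prop
  have h2 : ∫ t in (-R)..R, (R - |t|) * g t =
      (R - r) * (∫ t in (-R)..R, g t) + ∫ t in (-R)..R, (r - |t|) * g t := by
    rw [← intervalIntegral.integral_const_mul, ← intervalIntegral.integral_add
      ((hg.const_mul (R - r)).intervalIntegrable _ _) ((hc r).intervalIntegrable _ _)]
    refine intervalIntegral.integral_congr fun t _ => ?_
    show (R - |t|) * g t = (R - r) * g t + (r - |t|) * g t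
    ring
  have h3 : ∫ t in (-R)..R, (r - |t|) * g t = (∫ t in (-R)..(-r), (r - |t|) * g t) +
      (∫ t in (-r)..r, (r - |t|) * g t) + ∫ t in r..R, (r - |t|) * g t := by
    rw [intervalIntegral.integral_add_adjacent_intervals ((hc r).intervalIntegrable _ _)
      ((hc r).intervalIntegrable _ _), intervalIntegral.integral_add_adjacent_intervals
      ((hc r).intervalIntegrable _ _) ((hc r).intervalIntegrable _ _)]
  have h4 : ∫ t in (-R)..(-r), (r - |t|) * g t ≤ 0 := by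
    refine int_nonpos (by linarith) fun t ht => ?_
    have : r ≤ |t| := by
      rw [le_abs]
      right
      linarith [ht.2]
    exact mul_nonpos_of_nonpos_of_nonneg (by linarith) (h0 t)
  have h5 : ∫ t in r..R, (r - |t|) * g t ≤ 0 := by
    refine int_nonpos (by linarith) fun t ht => ?_
    have : r ≤ |t| := by
      rw [le_abs]
      left
      linarith [ht.1]
    exact mul_nonpos_of_nonpos_of_nonneg (by linarith) (h0 t)
  linarith

/-- window averages and Fejer means -/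
lemma wa_fa (hg : Continuous g) (h0 : ∀ x, 0 ≤ g x) {h c : ℝ} (hh : 0 < h) (hc : 0 < c) (hc1 : c < 1) (b : ℝ) :
    (wa h g b - 1) ^ 2 ≤ c ^ 2 + 16 / c ^ 2 * ((fa ((1 + c) * h) g b - 1) ^ 2 + (fa h g b - 1) ^ 2 +
      (fa ((1 - c) * h) g b - 1) ^ 2) := by
  have hg' : Continuous fun t => g (b + t) := by fun_prop
  have hch : 0 < c * h := by positivity
  have h1c : 0 < (1 - c) * h := mul_pos (by linarith) hh
  have h2c : 0 < (1 + c) * h := by positivity
  have A := hat_low hg' (fun x => h0 _) hh (show h < (1 + c) * h by linarith)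
  have B := hat_up hg' (fun x => h0 _) h1c (show (1 - c) * h < h by linarith)
  have hD : ∀ s : ℝ, 0 < s → ∫ t in (-s)..s, (s - |t|) * g (b + t) = s ^ 2 * fa s g b := by
    intro s hs
    unfold fa
    field_simp
  have hW : ∫ t in (-h)..h, g (b + t) = 2 * h * wa h g b := by
    rw [wa_sub]
    field_simp
  rw [hD _ hh, hD _ h2c, hW] at A
  rw [hD _ hh, hD _ h1c, hW] at B
  set y := wa h g b with hy
  set x1 := fa ((1 + c) * h) g b with hx1
  set x2 := fa h g b with hx2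
  set x3 := fa ((1 - c) * h) g b with hx3
  have A' : 2 * c * (y - 1) ≤ c ^ 2 + (1 + c) ^ 2 * (x1 - 1) - (x2 - 1) := by
    have e : h ^ 2 * (2 * c * (y - 1)) ≤ h ^ 2 * (c ^ 2 + (1 + c) ^ 2 * (x1 - 1) - (x2 - 1)) := by nlinarith
    exact le_of_mul_le_mul_left e (by positivity)
  have B' : -(2 * c * (y - 1)) ≤ c ^ 2 - (x2 - 1) + (1 - c) ^ 2 * (x3 - 1) := by
    have e : h ^ 2 * (-(2 * c * (y - 1))) ≤ h ^ 2 * (c ^ 2 - (x2 - 1) + (1 - c) ^ 2 * (x3 - 1)) := by nlinarith
    exact le_of_mul_le_mul_left e (by positivity)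
  have c1 : (1 + c) ^ 2 * (x1 - 1) ≤ 4 * |x1 - 1| := by
    have h1 : (1 + c) ^ 2 * (x1 - 1) ≤ (1 + c) ^ 2 * |x1 - 1| :=
      mul_le_mul_of_nonneg_left (le_abs_self _) (sq_nonneg _)
    have h2 : (1 + c) ^ 2 * |x1 - 1| ≤ 4 * |x1 - 1| :=
      mul_le_mul_of_nonneg_right (by nlinarith) (abs_nonneg _)
    linarith
  have c3 : (1 - c) ^ 2 * (x3 - 1) ≤ |x3 - 1| := by
    have h1 : (1 - c) ^ 2 * (x3 - 1) ≤ (1 - c) ^ 2 * |x3 - 1| :=
      mul_le_mul_of_nonneg_left (le_abs_self _) (sq_nonneg _)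
    have h2 : (1 - c) ^ 2 * |x3 - 1| ≤ 1 * |x3 - 1| :=
      mul_le_mul_of_nonneg_right (by nlinarith) (abs_nonneg _)
    linarith
  have c2 : -(x2 - 1) ≤ |x2 - 1| := neg_le_abs _
  have S0 : |2 * c * (y - 1)| ≤ c ^ 2 + 4 * |x1 - 1| + |x2 - 1| + |x3 - 1| := by
    rw [abs_le]
    have := abs_nonneg (x1 - 1)
    have := abs_nonneg (x3 - 1)
    constructor <;> linarith
  have S1 := pow_le_pow_left₀ (abs_nonneg _) S0 2
  rw [sq_abs] at S1
  have e1 := sq_abs (x1 - 1)
  have e2 := sq_abs (x2 - 1)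
  have e3 := sq_abs (x3 - 1)
  have S2 : (c ^ 2 + 4 * |x1 - 1| + |x2 - 1| + |x3 - 1|) ^ 2 ≤
      4 * c ^ 2 * (c ^ 2 + 16 / c ^ 2 * ((x1 - 1) ^ 2 + (x2 - 1) ^ 2 + (x3 - 1) ^ 2)) := by
    have e4 : 4 * c ^ 2 * (c ^ 2 + 16 / c ^ 2 * ((x1 - 1) ^ 2 + (x2 - 1) ^ 2 + (x3 - 1) ^ 2)) =
        4 * (c ^ 2) ^ 2 + 64 * (|x1 - 1| ^ 2 + |x2 - 1| ^ 2 + |x3 - 1| ^ 2) := by
      rw [e1, e2, e3]
      field_simp
      ring
    rw [e4]
    nlinarith [sq_nonneg (c ^ 2 - 4 * |x1 - 1|), sq_nonneg (c ^ 2 - |x2 - 1|), sq_nonneg (c ^ 2 - |x3 - 1|),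
      sq_nonneg (4 * |x1 - 1| - |x2 - 1|), sq_nonneg (4 * |x1 - 1| - |x3 - 1|), sq_nonneg (|x2 - 1| - |x3 - 1|),
      sq_nonneg |x2 - 1|, sq_nonneg |x3 - 1|]
  have S3 : 4 * c ^ 2 * (y - 1) ^ 2 ≤
      4 * c ^ 2 * (c ^ 2 + 16 / c ^ 2 * ((x1 - 1) ^ 2 + (x2 - 1) ^ 2 + (x3 - 1) ^ 2)) := by
    have e5 : (2 * c * (y - 1)) ^ 2 = 4 * c ^ 2 * (y - 1) ^ 2 := by ring
    rw [← e5]
    exact S1.trans S2
  exact le_of_mul_le_mul_left S3 (by positivity)

/-- the hat is the convolution of two windows -/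
lemma fa_eq (hg : Continuous g) {h : ℝ} (hh : 0 < h) (b : ℝ) :
    fa h g b = 1 / h * ∫ t in (0 : ℝ)..h, wa (h / 2) g (b + t - h / 2) := by
  have hg' : Continuous fun t => g (b + t) := by fun_prop
  obtain ⟨P, hP⟩ : ∃ P : ℝ → ℝ, P = fun x => ∫ s in (0 : ℝ)..x, g (b + s) := ⟨_, rfl⟩
  have hd : ∀ x, HasDerivAt P (g (b + x)) x := by
    intro x
    rw [hP]
    exact intervalIntegral.integral_hasDerivAt_right (hg'.intervalIntegrable _ _)
      (hg'.stronglyMeasurableAtFilter _ _) hg'.continuousAt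
  have hPc : Continuous P := continuous_iff_continuousAt.2 fun x => (hd x).continuousAt
  have hP0 : P 0 = 0 := by rw [hP]; simp
  have h1 : ∫ t in (0 : ℝ)..h, (h - |t|) * g (b + t) = ∫ t in (0 : ℝ)..h, P t := by
    have e : ∫ t in (0 : ℝ)..h, (h - |t|) * g (b + t) = ∫ t in (0 : ℝ)..h, (h - t) * g (b + t) := by
      refine intervalIntegral.integral_congr fun t ht => ?_
      rw [uIcc_of_le hh.le] at ht
      show (h - |t|) * g (b + t) = (h - t) * g (b + t)
      rw [abs_of_nonneg ht.1]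
    rw [e, intervalIntegral.integral_mul_deriv_eq_deriv_mul (u := fun t => h - t) (u' := fun _ => -1) (v := P)
      (fun x _ => by simpa using (hasDerivAt_id x).const_sub h) (fun x _ => hd x) (by simp)
      (hg'.intervalIntegrable _ _), hP0]
    simp
  have h2 : ∫ t in (-h)..0, (h - |t|) * g (b + t) = -∫ t in (-h)..0, P t := by
    have e : ∫ t in (-h)..0, (h - |t|) * g (b + t) = ∫ t in (-h)..0, (h + t) * g (b + t) := by
      refine intervalIntegral.integral_congr fun t ht => ?_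
      rw [uIcc_of_le (by linarith)] at ht
      show (h - |t|) * g (b + t) = (h + t) * g (b + t)
      rw [abs_of_nonpos ht.2, sub_neg_eq_add]
    rw [e, intervalIntegral.integral_mul_deriv_eq_deriv_mul (u := fun t => h + t) (u' := fun _ => 1) (v := P)
      (fun x _ => by simpa using (hasDerivAt_id x).const_add h) (fun x _ => hd x) (by simp)
      (hg'.intervalIntegrable _ _), hP0]
    simp
  have hcont : Continuous fun t : ℝ => (h - |t|) * g (b + t) := by fun_prop
  have hPs : Continuous fun t : ℝ => P (t - h) := hPc.comp (continuous_id.sub continuous_const)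
  have h3 : ∫ t in (-h)..h, (h - |t|) * g (b + t) = ∫ t in (0 : ℝ)..h, (P t - P (t - h)) := by
    rw [← intervalIntegral.integral_add_adjacent_intervals (b := 0) (hcont.intervalIntegrable _ _)
      (hcont.intervalIntegrable _ _), h1, h2, intervalIntegral.integral_sub (hPc.intervalIntegrable _ _)
      (hPs.intervalIntegrable _ _),
      intervalIntegral.integral_comp_sub_right (fun x => P x) h, zero_sub, sub_self]
    ring
  have h4 : ∀ t : ℝ, P t - P (t - h) = h * wa (h / 2) g (b + t - h / 2) := by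
    intro t
    have e1 : P t - P (t - h) = ∫ s in (t - h)..t, g (b + s) := by
      rw [hP]
      exact intervalIntegral.integral_interval_sub_left (hg'.intervalIntegrable _ _) (hg'.intervalIntegrable _ _)
    rw [e1, intervalIntegral.integral_comp_add_left (fun x => g x) b]
    unfold wa
    rw [show b + t - h / 2 - h / 2 = b + (t - h) by ring, show b + t - h / 2 + h / 2 = b + t by ring]
    field_simp
  unfold fa
  rw [h3]
  simp_rw [h4]
  rw [intervalIntegral.integral_const_mul]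
  field_simp

lemma sq_mean {f : ℝ → ℝ} (hf : Continuous f) {h : ℝ} (hh : 0 < h) :
    (1 / h * (∫ t in (0 : ℝ)..h, f t) - 1) ^ 2 ≤ 1 / h * ∫ t in (0 : ℝ)..h, (f t - 1) ^ 2 := by
  obtain ⟨m, hm⟩ : ∃ m : ℝ, m = 1 / h * (∫ t in (0 : ℝ)..h, f t) - 1 := ⟨_, rfl⟩
  have e0 : ∫ t in (0 : ℝ)..h, (f t - 1) = h * m := by
    rw [intervalIntegral.integral_sub (hf.intervalIntegrable _ _) (by simp), hm]
    simp
    field_simp
  have hf1 : Continuous fun t => (f t - 1) ^ 2 := by fun_prop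
  have hf2 : Continuous fun t => 2 * m * (f t - 1) := by fun_prop
  have hf3 : Continuous fun t => (f t - 1) ^ 2 - 2 * m * (f t - 1) := hf1.sub hf2
  have h1 : 0 ≤ ∫ t in (0 : ℝ)..h, ((f t - 1) - m) ^ 2 :=
    intervalIntegral.integral_nonneg hh.le fun t _ => sq_nonneg _
  have e : ∀ t, ((f t - 1) - m) ^ 2 = (f t - 1) ^ 2 - 2 * m * (f t - 1) + m ^ 2 := fun t => by ring
  simp_rw [e] at h1
  rw [intervalIntegral.integral_add (hf3.intervalIntegrable _ _) (by simp),
    intervalIntegral.integral_sub (hf1.intervalIntegrable _ _) (hf2.intervalIntegrable _ _),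
    intervalIntegral.integral_const_mul, e0, intervalIntegral.integral_const, smul_eq_mul, sub_zero] at h1
  rw [← hm]
  have h2 : h * m ^ 2 ≤ ∫ t in (0 : ℝ)..h, (f t - 1) ^ 2 := by nlinarith
  rw [one_div, le_inv_mul_iff₀ hh]
  exact h2

lemma wa_even (he : ∀ x, g (-x) = g x) (h b : ℝ) : wa h g (-b) = wa h g b := by
  unfold wa
  congr 1
  have h1 := intervalIntegral.integral_comp_neg (a := b - h) (b := b + h) fun α => g α
  rw [show -(b + h) = -b - h by ring, show -(b - h) = -b + h by ring] at h1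
  rw [← h1]
  refine intervalIntegral.integral_congr fun α _ => ?_
  exact he α

/-- window averages converge in mean square if all Fejer means do -/
theorem msq_wa {l : Filter ℝ} {G : ℝ → ℝ → ℝ} (hG : ∀ T, Continuous (G T)) (hG0 : ∀ᶠ T in l, ∀ x, 0 ≤ G T x)
    (hm : ∀ h : ℝ, 0 < h → Msq l fun T => fa h (G T)) {h : ℝ} (hh : 0 < h) : Msq l fun T => wa h (G T) := by
  intro ε hε
  obtain ⟨c, hc, hc1, hc2⟩ : ∃ c : ℝ, 0 < c ∧ c < 1 ∧ c ^ 2 ≤ ε / 2 := by
    refine ⟨min (1 / 2) (√(ε / 2)), lt_min (by norm_num) (Real.sqrt_pos.2 (by positivity)),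
      (min_le_left _ _).trans_lt (by norm_num), ?_⟩
    have h1 : min (1 / 2) (√(ε / 2)) ≤ √(ε / 2) := min_le_right _ _
    have h0 : 0 ≤ min (1 / 2) (√(ε / 2)) := le_min (by norm_num) (Real.sqrt_nonneg _)
    have h2 := pow_le_pow_left₀ h0 h1 2
    rwa [Real.sq_sqrt (by positivity)] at h2
  have hε' : 0 < ε * c ^ 2 / 96 := by positivity
  obtain ⟨B₁, hB₁, h1⟩ := hm ((1 + c) * h) (by positivity) _ hε'
  obtain ⟨B₂, hB₂, h2⟩ := hm h hh _ hε'
  obtain ⟨B₃, hB₃, h3⟩ := hm ((1 - c) * h) (mul_pos (by linarith) hh) _ hε'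
  refine ⟨max B₁ (max B₂ B₃), lt_max_of_lt_left hB₁, fun B hB => ?_⟩
  have b1 : B₁ ≤ B := (le_max_left _ _).trans hB
  have b2 : B₂ ≤ B := (le_max_left _ _).trans ((le_max_right _ _).trans hB)
  have b3 : B₃ ≤ B := (le_max_right _ _).trans ((le_max_right _ _).trans hB)
  have hB0 : 0 < B := by linarith
  filter_upwards [h1 B b1, h2 B b2, h3 B b3, hG0] with T t1 t2 t3 t0
  have k : ∀ s : ℝ, Continuous fun b => (fa s (G T) b - 1) ^ 2 := fun s =>
    ((fa_cont (hG T) s).sub continuous_const).pow 2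
  have kw : Continuous fun b => (wa h (G T) b - 1) ^ 2 := ((wa_cont (hG T) h).sub continuous_const).pow 2
  have k12 : Continuous fun b => (fa ((1 + c) * h) (G T) b - 1) ^ 2 + (fa h (G T) b - 1) ^ 2 := (k _).add (k _)
  have k123 : Continuous fun b => (fa ((1 + c) * h) (G T) b - 1) ^ 2 + (fa h (G T) b - 1) ^ 2 +
      (fa ((1 - c) * h) (G T) b - 1) ^ 2 := k12.add (k _)
  have kr : Continuous fun b => 16 / c ^ 2 * ((fa ((1 + c) * h) (G T) b - 1) ^ 2 + (fa h (G T) b - 1) ^ 2 +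
      (fa ((1 - c) * h) (G T) b - 1) ^ 2) := continuous_const.mul k123
  have kk : Continuous fun b => c ^ 2 + 16 / c ^ 2 * ((fa ((1 + c) * h) (G T) b - 1) ^ 2 + (fa h (G T) b - 1) ^ 2 +
      (fa ((1 - c) * h) (G T) b - 1) ^ 2) := continuous_const.add kr
  have hle : ∫ b in (0 : ℝ)..B, (wa h (G T) b - 1) ^ 2 ≤ ∫ b in (0 : ℝ)..B, (c ^ 2 + 16 / c ^ 2 *
      ((fa ((1 + c) * h) (G T) b - 1) ^ 2 + (fa h (G T) b - 1) ^ 2 + (fa ((1 - c) * h) (G T) b - 1) ^ 2)) :=
    intervalIntegral.integral_mono_on hB0.le (kw.intervalIntegrable _ _) (kk.intervalIntegrable _ _)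
      fun b _ => wa_fa (hG T) t0 hh hc hc1 b
  rw [intervalIntegral.integral_add (by simp) (kr.intervalIntegrable _ _), intervalIntegral.integral_const_mul,
    intervalIntegral.integral_add (k12.intervalIntegrable _ _) ((k _).intervalIntegrable _ _),
    intervalIntegral.integral_add ((k _).intervalIntegrable _ _) ((k _).intervalIntegrable _ _),
    intervalIntegral.integral_const, smul_eq_mul, sub_zero] at hle
  refine hle.trans ?_
  have e1 : 16 / c ^ 2 * ((∫ b in (0 : ℝ)..B, (fa ((1 + c) * h) (G T) b - 1) ^ 2) +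
      (∫ b in (0 : ℝ)..B, (fa h (G T) b - 1) ^ 2) + ∫ b in (0 : ℝ)..B, (fa ((1 - c) * h) (G T) b - 1) ^ 2) ≤
      16 / c ^ 2 * (3 * (ε * c ^ 2 / 96 * B)) :=
    mul_le_mul_of_nonneg_left (by linarith) (by positivity)
  have e2 : 16 / c ^ 2 * (3 * (ε * c ^ 2 / 96 * B)) = ε / 2 * B := by
    field_simp
    ring
  rw [e2] at e1
  have e3 : B * c ^ 2 ≤ B * (ε / 2) := mul_le_mul_of_nonneg_left hc2 hB0.le
  linarith

/-- Fejer means converge in mean square if the window averages do -/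
theorem msq_fa {l : Filter ℝ} {G : ℝ → ℝ → ℝ} (hG : ∀ T, Continuous (G T)) (hGe : ∀ᶠ T in l, ∀ x, G T (-x) = G T x)
    {h : ℝ} (hh : 0 < h) (hm : Msq l fun T => wa (h / 2) (G T)) : Msq l fun T => fa h (G T) := by
  intro ε hε
  obtain ⟨B₀, hB₀, h1⟩ := hm (ε / 4) (by positivity)
  refine ⟨max B₀ h, lt_max_of_lt_left hB₀, fun B hB => ?_⟩
  have b1 : B₀ ≤ B := (le_max_left _ _).trans hB
  have b2 : h ≤ B := (le_max_right _ _).trans hB
  have hB0 : 0 < B := by linarith
  filter_upwards [h1 (B + h / 2) (by linarith), hGe] with T t1 t2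
  have hw := wa_cont (hG T) (h / 2)
  have hq : Continuous fun b => (wa (h / 2) (G T) b - 1) ^ 2 := (hw.sub continuous_const).pow 2
  obtain ⟨q, hqd⟩ : ∃ q : ℝ → ℝ, q = fun b => (wa (h / 2) (G T) b - 1) ^ 2 := ⟨_, rfl⟩
  have hqc : Continuous q := by rw [hqd]; exact hq
  have hq0 : ∀ b, 0 ≤ q b := fun b => by rw [hqd]; exact sq_nonneg _
  have hqe : ∀ b, q (-b) = q b := fun b => by
    rw [hqd]
    show (wa (h / 2) (G T) (-b) - 1) ^ 2 = (wa (h / 2) (G T) b - 1) ^ 2
    rw [wa_even t2]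
  have hpt : ∀ b, (fa h (G T) b - 1) ^ 2 ≤ 1 / h * ∫ t in (0 : ℝ)..h, q (b + t - h / 2) := by
    intro b
    rw [fa_eq (hG T) hh b, hqd]
    have hwc : Continuous fun t => wa (h / 2) (G T) (b + t - h / 2) :=
      hw.comp ((continuous_const.add continuous_id).sub continuous_const)
    exact sq_mean hwc hh
  have hqq : Continuous fun p : ℝ × ℝ => q (p.1 + p.2 - h / 2) :=
    hqc.comp ((continuous_fst.add continuous_snd).sub continuous_const)
  have hic : Continuous fun b => ∫ t in (0 : ℝ)..h, q (b + t - h / 2) :=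
    intervalIntegral.continuous_parametric_intervalIntegral_of_continuous' hqq _ _
  have kf : Continuous fun b => (fa h (G T) b - 1) ^ 2 := ((fa_cont (hG T) h).sub continuous_const).pow 2
  have hle : ∫ b in (0 : ℝ)..B, (fa h (G T) b - 1) ^ 2 ≤
      ∫ b in (0 : ℝ)..B, 1 / h * ∫ t in (0 : ℝ)..h, q (b + t - h / 2) :=
    intervalIntegral.integral_mono_on hB0.le (kf.intervalIntegrable _ _)
      ((continuous_const.mul hic).intervalIntegrable _ _) fun b _ => hpt b
  rw [intervalIntegral.integral_const_mul] at hle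
  have hswap : ∫ b in (0 : ℝ)..B, ∫ t in (0 : ℝ)..h, q (b + t - h / 2) =
      ∫ t in (0 : ℝ)..h, ∫ b in (0 : ℝ)..B, q (b + t - h / 2) := by
    refine intervalIntegral_intervalIntegral_swap ?_
    have hcp : IsCompact (uIcc (0 : ℝ) B ×ˢ uIcc (0 : ℝ) h) := isCompact_uIcc.prod isCompact_uIcc
    refine (hqq.continuousOn.integrableOn_compact hcp).mono_set ?_
    exact prod_mono uIoc_subset_uIcc uIoc_subset_uIcc
  have hin : ∀ t ∈ Icc 0 h, ∫ b in (0 : ℝ)..B, q (b + t - h / 2) ≤ ∫ b in (-(h / 2))..(B + h / 2), q b := by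
    intro t ht
    have e : ∫ b in (0 : ℝ)..B, q (b + t - h / 2) = ∫ b in (t - h / 2)..(B + (t - h / 2)), q b := by
      have := intervalIntegral.integral_comp_add_right (a := (0 : ℝ)) (b := B) (fun x => q x) (t - h / 2)
      rw [zero_add] at this
      rw [← this]
      refine intervalIntegral.integral_congr fun b _ => ?_
      show q (b + t - h / 2) = q (b + (t - h / 2))
      congr 1
      ring
    rw [e]
    refine intervalIntegral.integral_mono_interval (by linarith [ht.1]) (by linarith) (by linarith [ht.2]) ?_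
      (hqc.intervalIntegrable _ _)
    exact ae_of_all _ fun b => hq0 b
  have hqi : Continuous fun t => ∫ b in (0 : ℝ)..B, q (b + t - h / 2) := by
    have : Continuous fun p : ℝ × ℝ => q (p.2 + p.1 - h / 2) :=
      hqc.comp ((continuous_snd.add continuous_fst).sub continuous_const)
    exact intervalIntegral.continuous_parametric_intervalIntegral_of_continuous' this _ _
  have hle2 : ∫ t in (0 : ℝ)..h, ∫ b in (0 : ℝ)..B, q (b + t - h / 2) ≤
      ∫ _ in (0 : ℝ)..h, ∫ b in (-(h / 2))..(B + h / 2), q b :=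
    intervalIntegral.integral_mono_on hh.le (hqi.intervalIntegrable _ _) (by simp) hin
  rw [intervalIntegral.integral_const, smul_eq_mul, sub_zero] at hle2
  rw [hswap] at hle
  have h5 : 1 / h * (∫ t in (0 : ℝ)..h, ∫ b in (0 : ℝ)..B, q (b + t - h / 2)) ≤
      ∫ b in (-(h / 2))..(B + h / 2), q b := by
    rw [one_div, inv_mul_le_iff₀ hh]
    exact hle2
  have h6 : ∫ b in (-(h / 2))..(B + h / 2), q b = (∫ b in (-(h / 2))..0, q b) + ∫ b in (0 : ℝ)..(B + h / 2), q b :=
    (intervalIntegral.integral_add_adjacent_intervals (hqc.intervalIntegrable _ _)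
      (hqc.intervalIntegrable _ _)).symm
  have h7 : ∫ b in (-(h / 2))..0, q b = ∫ b in (0 : ℝ)..(h / 2), q b := by
    have := intervalIntegral.integral_comp_neg (a := (0 : ℝ)) (b := h / 2) fun b => q b
    rw [neg_zero] at this
    rw [← this]
    refine intervalIntegral.integral_congr fun b _ => ?_
    exact hqe b
  have h8 : ∫ b in (0 : ℝ)..(h / 2), q b ≤ ∫ b in (0 : ℝ)..(B + h / 2), q b :=
    intervalIntegral.integral_mono_interval le_rfl (by linarith) (by linarith)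
      (ae_of_all _ fun b => hq0 b) (hqc.intervalIntegrable _ _)
  have h9 : ∫ b in (0 : ℝ)..(B + h / 2), q b ≤ ε / 4 * (B + h / 2) := by
    rw [hqd]
    exact t1
  have h10 : ε / 4 * (B + h / 2) ≤ ε / 4 * (2 * B) := mul_le_mul_of_nonneg_left (by linarith) (by positivity)
  linarith

/-- the window average is bounded by the Fejer mean -/
lemma wa_le (hg : Continuous g) (h0 : ∀ x, 0 ≤ g x) {h : ℝ} (hh : 0 < h) (b : ℝ) :
    wa h g b ≤ 2 * fa (2 * h) g b := by
  have hg' : Continuous fun t => g (b + t) := by fun_prop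
  have A := hat_low hg' (fun x => h0 _) hh (show h < 2 * h by linarith)
  have A0 : 0 ≤ ∫ t in (-h)..h, (h - |t|) * g (b + t) := by
    refine intervalIntegral.integral_nonneg (by linarith) fun t ht => ?_
    have := abs_le.2 ht
    exact mul_nonneg (by linarith) (h0 _)
  rw [wa_sub]
  unfold fa
  have h2 : (2 * h - h) * ∫ t in (-h)..h, g (b + t) ≤ ∫ t in (-(2 * h))..(2 * h), (2 * h - |t|) * g (b + t) := by
    linarith
  have e1 : 1 / (2 * h) * ∫ t in (-h)..h, g (b + t) = 1 / (2 * h ^ 2) * ((2 * h - h) * ∫ t in (-h)..h, g (b + t)) := by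
    field_simp
    ring
  have e2 : 2 * (1 / (2 * h) ^ 2 * ∫ t in (-(2 * h))..(2 * h), (2 * h - |t|) * g (b + t)) =
      1 / (2 * h ^ 2) * ∫ t in (-(2 * h))..(2 * h), (2 * h - |t|) * g (b + t) := by
    field_simp
  rw [e1, e2]
  exact mul_le_mul_of_nonneg_left h2 (by positivity)

lemma wa_nonneg (h0 : ∀ x, 0 ≤ g x) {h : ℝ} (hh : 0 < h) (b : ℝ) : 0 ≤ wa h g b := by
  unfold wa
  exact mul_nonneg (by positivity) (intervalIntegral.integral_nonneg (by linarith) fun t _ => h0 t)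

end

end Pool.Agent.Zk22.WF
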