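import Pool.Agent.Zk22.WF.C
import Pool.Agent.Zk22.WF.E
import Pool.Agent.Y749.Rig.FFc

/-! # The pair measures of the zeros -/

set_option autoImplicit false

open MeasureTheory Set Filter Topology

namespace Pool.Agent.Zk22.WF

open Pool.Agent.Y749.Rig

/-- the weights -/
noncomputable def Wz (T x : ℝ) : ℝ := ww (2 * Real.pi * x / Real.log T)

theorem sys_zeta : ∃ C : ℝ, ∀ l : Filter ℝ, l ≤ atTop → Sys l Mp Wz C := by
  obtain ⟨C, hC, hB⟩ := Mp_bdd
  refine ⟨C, fun l hl => ?_⟩
  constructor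
  · exact Mp_fin
  · linarith
  · exact hl hB
  · exact fun ε hε => hl (Mp_zero hε)
  · filter_upwards [hl (eventually_ge_atTop 10)] with T hT using Mp_ev hT
  · intro T
    have := ww_cont
    unfold Wz
    fun_prop
  · intro T
    unfold Wz
    rw [mul_zero, zero_div, ww_zero]
  · exact fun T x => (ww_pos _).le
  · exact fun T x => ww_le _
  · intro R ε hε
    have h1 : Tendsto (fun T : ℝ => (2 * Real.pi * |R| / Real.log T) ^ 2 / 4) atTop (𝓝 0) := by
      have h2 : Tendsto (fun T : ℝ => 2 * Real.pi * |R| / Real.log T) atTop (𝓝 0) :=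
        Tendsto.div_atTop tendsto_const_nhds Real.tendsto_log_atTop
      have h3 := (h2.pow 2).div_const 4
      simpa using h3
    filter_upwards [hl (h1.eventually (gt_mem_nhds hε)), hl (eventually_ge_atTop 10)] with T g1 g2
    intro x hx
    have hL : 0 < Real.log T := Real.log_pos (by linarith)
    have h2 := ww_sub (2 * Real.pi * x / Real.log T)
    have h3 : (2 * Real.pi * x / Real.log T) ^ 2 ≤ (2 * Real.pi * |R| / Real.log T) ^ 2 := by
      rw [div_pow, div_pow]
      refine div_le_div_of_nonneg_right ?_ (by positivity)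
      rw [mul_pow _ x, mul_pow _ |R|]
      refine mul_le_mul_of_nonneg_left ?_ (by positivity)
      rw [← sq_abs x]
      exact pow_le_pow_left₀ (abs_nonneg x) (hx.trans (le_abs_self R)) 2
    unfold Wz
    have h4 := (abs_le.1 h2).2
    linarith

lemma fl_shift {h : ℝ} (hh : 0 < h) (b x : ℝ) :
    fl (fun α => tr h (α - b)) x = Real.cos (2 * Real.pi * b * x) * fl (tr h) x := by
  unfold fl
  have e1 : ∫ α : ℝ, tr h (α - b) * Real.cos (2 * Real.pi * α * x) =
      ∫ α : ℝ, tr h α * Real.cos (2 * Real.pi * (α + b) * x) := by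
    rw [← integral_sub_right_eq_self (fun α : ℝ => tr h α * Real.cos (2 * Real.pi * (α + b) * x)) b]
    refine integral_congr_ae (ae_of_all _ fun α => ?_)
    simp only
    rw [sub_add_cancel]
  rw [e1]
  have hi1 : Integrable fun α : ℝ => Real.cos (2 * Real.pi * b * x) * (tr h α * Real.cos (2 * Real.pi * α * x)) := by
    refine ((tr_int hh).mul_bdd (c := 1) ?_ (ae_of_all _ fun p => ?_)).const_mul _
    · apply Continuous.aestronglyMeasurable
      fun_prop
    · rw [Real.norm_eq_abs]
      exact Real.abs_cos_le_one _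
  have hi2 : Integrable fun α : ℝ => tr h α * (Real.sin (2 * Real.pi * α * x) * Real.sin (2 * Real.pi * b * x)) := by
    refine (tr_int hh).mul_bdd (c := 1) ?_ (ae_of_all _ fun p => ?_)
    · apply Continuous.aestronglyMeasurable
      fun_prop
    · rw [Real.norm_eq_abs, abs_mul]
      exact mul_le_one₀ (Real.abs_sin_le_one _) (abs_nonneg _) (Real.abs_sin_le_one _)
  have e2 : ∀ α : ℝ, tr h α * Real.cos (2 * Real.pi * (α + b) * x) =
      Real.cos (2 * Real.pi * b * x) * (tr h α * Real.cos (2 * Real.pi * α * x)) -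
      tr h α * (Real.sin (2 * Real.pi * α * x) * Real.sin (2 * Real.pi * b * x)) := by
    intro α
    rw [show 2 * Real.pi * (α + b) * x = 2 * Real.pi * α * x + 2 * Real.pi * b * x by ring, Real.cos_add]
    ring
  simp_rw [e2]
  rw [integral_sub hi1 hi2, integral_const_mul]
  have e3 : ∫ α : ℝ, tr h α * (Real.sin (2 * Real.pi * α * x) * Real.sin (2 * Real.pi * b * x)) = 0 := by
    apply int_zero_of_odd
    intro α
    rw [tr_even, show 2 * Real.pi * -α * x = -(2 * Real.pi * α * x) by ring, Real.sin_neg]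
    ring
  rw [e3, sub_zero]

/-- the transform of the weighted pair measure is the local Fejer mean of the form factor -/
theorem ct_Fr {h : ℝ} (hh : 0 < h) (T b : ℝ) :
    ct (nu Mp Wz h T) b = fa h (Fr T) b := by
  have hS : Sys atTop Mp Wz sys_zeta.choose := sys_zeta.choose_spec atTop le_rfl
  have h1 : ct (nu Mp Wz h T) b = ∫ x, Real.cos (2 * Real.pi * b * x) * (fl (tr h) x * Wz T x) ∂(Mp T) := by
    unfold ct nu
    rw [integral_withDensity_eq_integral_toReal_smul (dens_meas hS hh T)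
      (ae_of_all _ fun x => ENNReal.ofReal_lt_top)]
    refine integral_congr_ae (ae_of_all _ fun x => ?_)
    simp only
    rw [ENNReal.toReal_ofReal (dens_nonneg hS hh T x), smul_eq_mul]
    ring
  have h2 : ∫ α, tr h (α - b) * Fr T α = ct (nu Mp Wz h T) b := by
    rw [Fr_pair (ψ := fun α => tr h (α - b)) ((tr_int hh).comp_sub_right b), h1]
    refine integral_congr_ae (ae_of_all _ fun x => ?_)
    simp only
    rw [fl_shift hh, mul_assoc]
    rfl
  rw [← h2]
  have h3 : ∫ α, tr h (α - b) * Fr T α = ∫ t, tr h t * Fr T (b + t) := by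
    rw [← integral_sub_right_eq_self (fun t : ℝ => tr h t * Fr T (b + t)) b]
    refine integral_congr_ae (ae_of_all _ fun α => ?_)
    simp only
    rw [add_sub_cancel]
  unfold fa
  rw [h3, int_supp hh (fun x hx => by rw [tr_supp hh x hx, zero_mul]), ← intervalIntegral.integral_const_mul]
  refine intervalIntegral.integral_congr fun t ht => ?_
  rw [uIcc_of_le (by linarith)] at ht
  have h4 : |t| ≤ h := abs_le.2 ht
  show tr h t * Fr T (b + t) = 1 / h ^ 2 * ((h - |t|) * Fr T (b + t))
  unfold tr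
  rw [max_eq_right (by rw [sub_nonneg]; exact (div_le_one hh).2 h4)]
  field_simp

lemma pl_iff (l : Filter ℝ) {h : ℝ} (hh : 0 < h) : PL l Mp Wz h ↔ Msq l fun T => fa h (Fr T) := by
  unfold PL Msq
  simp_rw [ct_Fr hh]

lemma wa_bdd {l : Filter ℝ} (hl : l ≤ atTop) {C : ℝ} (S : Sys l Mp Wz C) {h : ℝ} (hh : 0 < h) :
    ∃ K : ℝ, 0 < K ∧ ∀ᶠ T in l, ∀ b, |wa h (Fr T) b - 1| ≤ K := by
  have h2 : 0 < 2 * h := by linarith
  obtain ⟨K, hK, hKT⟩ := nu_univ S h2
  refine ⟨2 * K + 1, by linarith, ?_⟩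
  filter_upwards [hKT, hl (eventually_ge_atTop 10)] with T g1 g2 b
  have hf := nu_fin S h2 T
  have h3 := ct_le (ν := nu Mp Wz (2 * h) T) b
  rw [ct_Fr h2] at h3
  have h4 := wa_le (Fr_cont T) (Fr_nonneg g2) hh b
  have h5 := wa_nonneg (Fr_nonneg g2) hh b
  have h6 := (abs_le.1 (h3.trans g1)).2
  rw [abs_le]
  constructor <;> linarith

/-- **the equivalence for the zeros** -/
theorem zeta_tfae {l : Filter ℝ} (hl : l ≤ atTop) : List.TFAE [NoAt l Mp,
    ∀ h : ℝ, 0 < h → Msq l fun T => wa h (Fr T), ∀ h : ℝ, 0 < h → Mea l fun T => wa h (Fr T)] := by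
  obtain ⟨C, hC⟩ := sys_zeta
  have S := hC l hl
  have hpos : ∀ᶠ T in l, ∀ x, 0 ≤ Fr T x := by
    filter_upwards [hl (eventually_ge_atTop 10)] with T hT using Fr_nonneg hT
  tfae_have 1 → 2 := by
    intro h1 h hh
    exact msq_wa Fr_cont hpos (fun s hs => (pl_iff l hs).1 (pl_of_ms S hs (up S h1 hs))) hh
  tfae_have 2 → 3 := fun h2 h hh => mea_of_msq (fun T => wa_cont (Fr_cont T) h) (h2 h hh)
  tfae_have 3 → 2 := by
    intro h3 h hh
    obtain ⟨K, hK, hb⟩ := wa_bdd hl S hh
    exact msq_of_mea (fun T => wa_cont (Fr_cont T) h) hK hb (h3 h hh)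
  tfae_have 2 → 1 := by
    intro h2
    refine down S fun h hh => ms_of_pl S hh ((pl_iff l hh).2 ?_)
    exact msq_fa Fr_cont (Eventually.of_forall fun T => Fr_even T) hh (h2 (h / 2) (by linarith))
  tfae_finish

end Pool.Agent.Zk22.WF
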