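import Pool.Agent.Zk22.WF.D

/-! # One half for almost all frequencies -/

set_option autoImplicit false

open MeasureTheory Set Filter Topology

namespace Pool.Agent.Zk22.WF

open Pool.Agent.Y749.Rig

/-- averages of shifted functions -/
lemma avg_shift {q : ℝ → ℝ} (hqc : Continuous q) (hq0 : ∀ b, 0 ≤ q b) (hqe : ∀ b, q (-b) = q b) {h B : ℝ}
    (hh : 0 < h) (hB : 0 < B) :
    ∫ b in (0 : ℝ)..B, 1 / h * ∫ t in (0 : ℝ)..h, q (b + t - h / 2) ≤ 2 * ∫ b in (0 : ℝ)..(B + h / 2), q b := by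
  have hqq : Continuous fun p : ℝ × ℝ => q (p.1 + p.2 - h / 2) :=
    hqc.comp ((continuous_fst.add continuous_snd).sub continuous_const)
  rw [intervalIntegral.integral_const_mul]
  have hswap : ∫ b in (0 : ℝ)..B, ∫ t in (0 : ℝ)..h, q (b + t - h / 2) =
      ∫ t in (0 : ℝ)..h, ∫ b in (0 : ℝ)..B, q (b + t - h / 2) := by
    refine intervalIntegral_intervalIntegral_swap ?_
    have hcp : IsCompact (uIcc (0 : ℝ) B ×ˢ uIcc (0 : ℝ) h) := isCompact_uIcc.prod isCompact_uIcc
    refine (hqq.continuousOn.integrableOn_compact hcp).mono_set ?_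
    exact prod_mono uIoc_subset_uIcc uIoc_subset_uIcc
  have hin : ∀ t ∈ Icc 0 h, ∫ b in (0 : ℝ)..B, q (b + t - h / 2) ≤ ∫ b in (-(h / 2))..(B + h / 2), q b := by
    intro t ht
    have e : ∫ b in (0 : ℝ)..B, q (b + t - h / 2) = ∫ b in (t - h / 2)..(B + (t - h / 2)), q b := by
      have := intervalIntegral.integral_comp_add_right (a := (0 : ℝ)) (b := B) (fun x => q x) (t - h / 2)
      rw [zero_add] at this
      rw [← this]
      refine intervalIntegral.integral_congr fun b _ => ?_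
      show q (b + t - h / 2) = q (b + (t - h / 2))
      congr 1
      ring
    rw [e]
    refine intervalIntegral.integral_mono_interval (by linarith [ht.1]) (by linarith) (by linarith [ht.2]) ?_
      (hqc.intervalIntegrable _ _)
    exact ae_of_all _ fun b => hq0 b
  have hqi : Continuous fun t => ∫ b in (0 : ℝ)..B, q (b + t - h / 2) := by
    have : Continuous fun p : ℝ × ℝ => q (p.2 + p.1 - h / 2) :=
      hqc.comp ((continuous_snd.add continuous_fst).sub continuous_const)
    exact intervalIntegral.continuous_parametric_intervalIntegral_of_continuous' this _ _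
  have hle2 : ∫ t in (0 : ℝ)..h, ∫ b in (0 : ℝ)..B, q (b + t - h / 2) ≤
      ∫ _ in (0 : ℝ)..h, ∫ b in (-(h / 2))..(B + h / 2), q b :=
    intervalIntegral.integral_mono_on hh.le (hqi.intervalIntegrable _ _) (by simp) hin
  rw [intervalIntegral.integral_const, smul_eq_mul, sub_zero] at hle2
  rw [hswap]
  have h5 : 1 / h * (∫ t in (0 : ℝ)..h, ∫ b in (0 : ℝ)..B, q (b + t - h / 2)) ≤
      ∫ b in (-(h / 2))..(B + h / 2), q b := by
    rw [one_div, inv_mul_le_iff₀ hh]
    exact hle2
  have h6 : ∫ b in (-(h / 2))..(B + h / 2), q b = (∫ b in (-(h / 2))..0, q b) + ∫ b in (0 : ℝ)..(B + h / 2), q b :=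
    (intervalIntegral.integral_add_adjacent_intervals (hqc.intervalIntegrable _ _)
      (hqc.intervalIntegrable _ _)).symm
  have h7 : ∫ b in (-(h / 2))..0, q b = ∫ b in (0 : ℝ)..(h / 2), q b := by
    have := intervalIntegral.integral_comp_neg (a := (0 : ℝ)) (b := h / 2) fun b => q b
    rw [neg_zero] at this
    rw [← this]
    refine intervalIntegral.integral_congr fun b _ => ?_
    exact hqe b
  have h8 : ∫ b in (0 : ℝ)..(h / 2), q b ≤ ∫ b in (0 : ℝ)..(B + h / 2), q b :=
    intervalIntegral.integral_mono_interval le_rfl (by linarith) (by linarith)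
      (ae_of_all _ fun b => hq0 b) (hqc.intervalIntegrable _ _)
  linarith

lemma int_of_meas {φ : ℝ → ℝ} (hc : Continuous φ) {κ K B : ℝ} (hB : 0 ≤ B) (hκ : 0 ≤ κ)
    (hK : ∀ b, φ b ≤ K) :
    ∫ b in (0 : ℝ)..B, φ b ≤ κ * B + K * volume.real {b : ℝ | b ∈ Icc 0 B ∧ κ < φ b} := by
  have hms : MeasurableSet {b : ℝ | b ∈ Icc 0 B ∧ κ < φ b} := by
    have h2 : MeasurableSet {b : ℝ | κ < φ b} := measurableSet_lt measurable_const hc.measurable
    exact measurableSet_Icc.inter h2
  set A := {b : ℝ | b ∈ Icc 0 B ∧ κ < φ b} with hA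
  have hsub : A ⊆ Icc 0 B := fun b hb => hb.1
  have hfin : volume A < ⊤ :=
    (measure_mono hsub).trans_lt (by rw [Real.volume_Icc]; exact ENNReal.ofReal_lt_top)
  have hpt : ∀ b ∈ Icc (0 : ℝ) B, φ b ≤ κ + A.indicator (fun _ => K) b := by
    intro b hb
    by_cases hbA : b ∈ A
    · rw [indicator_of_mem hbA]
      linarith [hK b]
    · rw [indicator_of_notMem hbA, add_zero]
      by_contra hcon
      exact hbA ⟨hb, not_le.1 hcon⟩
  have i1 : Integrable (fun _ : ℝ => κ) (volume.restrict (Icc 0 B)) :=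
    integrableOn_const (by rw [Real.volume_Icc]; exact ENNReal.ofReal_ne_top)
  have i2 : Integrable (A.indicator fun _ : ℝ => K) (volume.restrict (Icc 0 B)) := by
    refine Integrable.integrableOn ?_
    rw [integrable_indicator_iff hms]
    exact integrableOn_const hfin.ne
  have hi : IntegrableOn (fun b => κ + A.indicator (fun _ => K) b) (Icc 0 B) := i1.add i2
  rw [intervalIntegral.integral_of_le hB, ← integral_Icc_eq_integral_Ioc]
  refine (setIntegral_mono_on hc.integrableOn_Icc hi measurableSet_Icc hpt).trans ?_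
  rw [integral_add i1 i2, setIntegral_const, setIntegral_indicator hms, setIntegral_const,
    inter_eq_self_of_subset_right hsub]
  simp only [smul_eq_mul]
  rw [Real.volume_real_Icc_of_le hB, sub_zero]
  linarith

/-- one half in measure -/
def Half (l : Filter ℝ) (s : ℝ) (f : ℝ → ℝ → ℝ) : Prop := ∀ κ ε : ℝ, 0 < κ → 0 < ε →
  ∃ B₀ : ℝ, 0 < B₀ ∧ ∀ B : ℝ, B₀ ≤ B → ∀ᶠ T in l,
    volume.real {b : ℝ | b ∈ Icc 0 B ∧ κ < s * (f T b - 1)} ≤ ε * B

/-- one half in the mean -/
def HalfM (l : Filter ℝ) (s : ℝ) (f : ℝ → ℝ → ℝ) : Prop := ∀ ε : ℝ, 0 < ε →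
  ∃ B₀ : ℝ, 0 < B₀ ∧ ∀ B : ℝ, B₀ ≤ B → ∀ᶠ T in l, ∫ b in (0 : ℝ)..B, max (s * (f T b - 1)) 0 ≤ ε * B

/-- transfer from windows to Fejer means -/
theorem halfM {l : Filter ℝ} {G : ℝ → ℝ → ℝ} (hG : ∀ T, Continuous (G T)) (hGe : ∀ᶠ T in l, ∀ x, G T (-x) = G T x)
    {h s K : ℝ} (hh : 0 < h) (hK0 : 0 < K) (hK : ∀ᶠ T in l, ∀ b, s * (wa (h / 2) (G T) b - 1) ≤ K)
    (hm : Half l s fun T => wa (h / 2) (G T)) : HalfM l s fun T => fa h (G T) := by
  intro ε hε
  obtain ⟨B₀, hB₀, h1⟩ := hm (ε / 8) (ε / (8 * K)) (by positivity) (by positivity)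
  refine ⟨max B₀ h, lt_max_of_lt_left hB₀, fun B hB => ?_⟩
  have b1 : B₀ ≤ B := (le_max_left _ _).trans hB
  have b2 : h ≤ B := (le_max_right _ _).trans hB
  have hB0 : 0 < B := by linarith
  filter_upwards [h1 (B + h / 2) (by linarith), hGe, hK] with T t1 t2 t3
  have hw := wa_cont (hG T) (h / 2)
  have hws : Continuous fun b => s * (wa (h / 2) (G T) b - 1) := continuous_const.mul (hw.sub continuous_const)
  have hq : Continuous fun b => max (s * (wa (h / 2) (G T) b - 1)) 0 := hws.max continuous_const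
  obtain ⟨q, hqd⟩ : ∃ q : ℝ → ℝ, q = fun b => max (s * (wa (h / 2) (G T) b - 1)) 0 := ⟨_, rfl⟩
  have hqc : Continuous q := by rw [hqd]; exact hq
  have hq0 : ∀ b, 0 ≤ q b := fun b => by rw [hqd]; exact le_max_right _ _
  have hqe : ∀ b, q (-b) = q b := fun b => by
    rw [hqd]
    show max (s * (wa (h / 2) (G T) (-b) - 1)) 0 = max (s * (wa (h / 2) (G T) b - 1)) 0
    rw [wa_even t2]
  have hpt : ∀ b, max (s * (fa h (G T) b - 1)) 0 ≤ 1 / h * ∫ t in (0 : ℝ)..h, q (b + t - h / 2) := by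
    intro b
    have hqs : Continuous fun t => q (b + t - h / 2) :=
      hqc.comp ((continuous_const.add continuous_id).sub continuous_const)
    have hwc : Continuous fun t => wa (h / 2) (G T) (b + t - h / 2) :=
      hw.comp ((continuous_const.add continuous_id).sub continuous_const)
    have hwcs : Continuous fun t => s * (wa (h / 2) (G T) (b + t - h / 2) - 1) :=
      continuous_const.mul (hwc.sub continuous_const)
    refine max_le ?_ (mul_nonneg (by positivity) (intervalIntegral.integral_nonneg hh.le fun t _ => hq0 _))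
    rw [fa_eq (hG T) hh b]
    have e : s * (1 / h * (∫ t in (0 : ℝ)..h, wa (h / 2) (G T) (b + t - h / 2)) - 1) =
        1 / h * ∫ t in (0 : ℝ)..h, s * (wa (h / 2) (G T) (b + t - h / 2) - 1) := by
      rw [intervalIntegral.integral_const_mul, intervalIntegral.integral_sub (hwc.intervalIntegrable _ _) (by simp)]
      simp
      field_simp
    rw [e]
    refine mul_le_mul_of_nonneg_left ?_ (by positivity)
    refine intervalIntegral.integral_mono_on hh.le (hwcs.intervalIntegrable _ _) (hqs.intervalIntegrable _ _)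
      fun t _ => ?_
    rw [hqd]
    exact le_max_left _ _
  have hqq : Continuous fun p : ℝ × ℝ => q (p.1 + p.2 - h / 2) :=
    hqc.comp ((continuous_fst.add continuous_snd).sub continuous_const)
  have hic : Continuous fun b => ∫ t in (0 : ℝ)..h, q (b + t - h / 2) :=
    intervalIntegral.continuous_parametric_intervalIntegral_of_continuous' hqq _ _
  have kf : Continuous fun b => max (s * (fa h (G T) b - 1)) 0 :=
    (continuous_const.mul ((fa_cont (hG T) h).sub continuous_const)).max continuous_const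
  have hle : ∫ b in (0 : ℝ)..B, max (s * (fa h (G T) b - 1)) 0 ≤
      ∫ b in (0 : ℝ)..B, 1 / h * ∫ t in (0 : ℝ)..h, q (b + t - h / 2) :=
    intervalIntegral.integral_mono_on hB0.le (kf.intervalIntegrable _ _)
      ((continuous_const.mul hic).intervalIntegrable _ _) fun b _ => hpt b
  have h2 := avg_shift hqc hq0 hqe hh hB0
  have h3 := int_of_meas hqc (κ := ε / 8) (K := K) (B := B + h / 2) (by linarith) (by positivity) fun b => by
    rw [hqd]
    exact max_le (t3 b) hK0.le
  have h4 : {b : ℝ | b ∈ Icc 0 (B + h / 2) ∧ ε / 8 < q b} =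
      {b : ℝ | b ∈ Icc 0 (B + h / 2) ∧ ε / 8 < s * (wa (h / 2) (G T) b - 1)} := by
    ext b
    simp only [mem_ofPred_eq, hqd]
    refine and_congr_right fun _ => ?_
    rw [lt_max_iff]
    constructor
    · rintro (h5 | h5)
      · exact h5
      · exfalso; linarith
    · exact fun h5 => Or.inl h5
  rw [h4] at h3
  have h5 : K * volume.real {b : ℝ | b ∈ Icc 0 (B + h / 2) ∧ ε / 8 < s * (wa (h / 2) (G T) b - 1)} ≤
      K * (ε / (8 * K) * (B + h / 2)) := mul_le_mul_of_nonneg_left t1 hK0.le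
  have h6 : K * (ε / (8 * K) * (B + h / 2)) = ε / 8 * (B + h / 2) := by
    field_simp
  have h7 : ε / 8 * (B + h / 2) ≤ ε / 8 * (2 * B) := mul_le_mul_of_nonneg_left (by linarith) (by positivity)
  linarith

variable {l : Filter ℝ} {M : ℝ → Measure ℝ} {W : ℝ → ℝ → ℝ} {C : ℝ}

/-- the Fejer mean is bounded below in one half -/
def Lin (l : Filter ℝ) (M : ℝ → Measure ℝ) (W : ℝ → ℝ → ℝ) (s h : ℝ) : Prop := ∀ ε : ℝ, 0 < ε →
  ∃ L₀ : ℝ, 0 < L₀ ∧ ∀ L : ℝ, L₀ ≤ L → ∀ᶠ T in l, -ε ≤ ∫ b, tr L b * (s * (ct (nu M W h T) b - 1))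

theorem ms_of_half (S : Sys l M W C) {h s : ℝ} (hh : 0 < h) (hs : s = 1 ∨ s = -1) (h1 : Lin l M W s h)
    (h2 : HalfM l s fun T => ct (nu M W h T)) : MS l M W h := by
  intro ε hε
  obtain ⟨K, hK, hKT⟩ := nu_univ S hh
  have hε' : 0 < ε / (5 * (K + 1)) := by positivity
  obtain ⟨L₁, hL₁, g1⟩ := h1 _ hε'
  obtain ⟨L₂, hL₂, g2⟩ := h2 _ hε'
  refine ⟨max L₁ L₂, lt_max_of_lt_left hL₁, fun L hL => ?_⟩
  have l1 : L₁ ≤ L := (le_max_left _ _).trans hL
  have l2 : L₂ ≤ L := (le_max_right _ _).trans hL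
  have hL0 : 0 < L := by linarith
  filter_upwards [g1 L l1, g2 L l2, hKT] with T t1 t2 t3
  have hfi := nu_fin S hh T
  have hc : Continuous (ct (nu M W h T)) := ct_cont
  obtain ⟨a, ha⟩ : ∃ a : ℝ → ℝ, a = ct (nu M W h T) := ⟨_, rfl⟩
  have hle : ∀ b, |a b| ≤ K := fun b => by rw [ha]; exact (ct_le b).trans t3
  have hae : ∀ b, a (-b) = a b := fun b => by rw [ha]; exact ct_even _ b
  rw [← ha] at hc t1 ⊢
  have t2' : ∫ b in (0 : ℝ)..L, max (s * (a b - 1)) 0 ≤ ε / (5 * (K + 1)) * L := by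
    rw [ha]
    exact t2
  have hcs : Continuous fun b => s * (a b - 1) := continuous_const.mul (hc.sub continuous_const)
  have hcm : Continuous fun b => max (s * (a b - 1)) 0 := hcs.max continuous_const
  have hcq : Continuous fun b => (a b - 1) ^ 2 := (hc.sub continuous_const).pow 2
  have i1 := tr_mul_int hL0 hcs
  have i2 := tr_mul_int hL0 hcm
  have i3 := tr_mul_int hL0 hcq
  have hpt : ∀ b, tr L b * (a b - 1) ^ 2 ≤ (K + 1) * (2 * (tr L b * max (s * (a b - 1)) 0) -
      tr L b * (s * (a b - 1))) := by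
    intro b
    have e1 : (K + 1) * (2 * (tr L b * max (s * (a b - 1)) 0) - tr L b * (s * (a b - 1))) =
        tr L b * ((K + 1) * (2 * max (s * (a b - 1)) 0 - s * (a b - 1))) := by ring
    rw [e1]
    refine mul_le_mul_of_nonneg_left ?_ (tr_nonneg hL0 b)
    have e2 : 2 * max (s * (a b - 1)) 0 - s * (a b - 1) = |a b - 1| := by
      rcases hs with rfl | rfl
      · rcases le_total 0 (a b - 1) with h | h
        · rw [one_mul, max_eq_left h, abs_of_nonneg h]; ring
        · rw [one_mul, max_eq_right h, abs_of_nonpos h]; ring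
      · rcases le_total 0 (a b - 1) with h | h
        · rw [max_eq_right (by linarith), abs_of_nonneg h]; ring
        · rw [max_eq_left (by linarith), abs_of_nonpos h]; ring
    rw [e2, ← sq_abs, sq]
    refine mul_le_mul_of_nonneg_right ?_ (abs_nonneg _)
    refine (abs_sub _ _).trans ?_
    rw [abs_one]
    linarith [hle b]
  have i4 : Integrable fun b => (K + 1) * (2 * (tr L b * max (s * (a b - 1)) 0) - tr L b * (s * (a b - 1))) :=
    ((i2.const_mul 2).sub i1).const_mul _
  have h5 := integral_mono i3 i4 hpt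
  rw [integral_const_mul, integral_sub (i2.const_mul 2) i1, integral_const_mul] at h5
  have h6 := fejer_le hL0 hcm (fun b => le_max_right _ _) fun b => by rw [hae]
  have h7 : 2 / L * (∫ b in (0 : ℝ)..L, max (s * (a b - 1)) 0) ≤ 2 / L * (ε / (5 * (K + 1)) * L) :=
    mul_le_mul_of_nonneg_left t2' (by positivity)
  have h8 : 2 / L * (ε / (5 * (K + 1)) * L) = 2 * (ε / (5 * (K + 1))) := by
    field_simp
  refine h5.trans ?_
  have h9 : (K + 1) * (2 * (∫ b, tr L b * max (s * (a b - 1)) 0) - ∫ b, tr L b * (s * (a b - 1))) ≤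
      (K + 1) * (5 * (ε / (5 * (K + 1)))) := mul_le_mul_of_nonneg_left (by linarith) (by linarith)
  refine h9.trans (le_of_eq ?_)
  field_simp

lemma int_one {ν : Measure ℝ} [IsFiniteMeasure ν] {L : ℝ} (hL : 0 < L) (s : ℝ) :
    ∫ b, tr L b * (s * (ct ν b - 1)) = s * ((∫ x, fl (tr L) x ∂ν) - 1) := by
  have e : ∀ b, tr L b * (s * (ct ν b - 1)) = s * (tr L b * ct ν b - tr L b) := fun b => by ring
  simp_rw [e]
  rw [integral_const_mul, integral_sub (ct_int (tr_int hL)) (tr_int hL), ct_pair (tr_int hL), int_tr1 hL]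

lemma F_integrable {ν : Measure ℝ} [IsFiniteMeasure ν] {L : ℝ} (hL : 0 < L) : Integrable (fun x => fl (tr L) x) ν := by
  refine Integrable.of_bound (C := 1) ?_ (ae_of_all _ fun x => ?_)
  · exact (fl_cont (tr_int hL)).aestronglyMeasurable
  · rw [Real.norm_eq_abs, abs_of_nonneg (F_nonneg hL _)]
    exact F_le_one hL _

lemma lin_up (S : Sys l M W C) {h : ℝ} (hh : 0 < h) : Lin l M W 1 h := by
  intro ε hε
  refine ⟨1, one_pos, fun L hL => ?_⟩
  have hL0 : 0 < L := by linarith
  filter_upwards [S.zero ε hε] with T t1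
  have := S.fin T
  have hfi := nu_fin S hh T
  rw [int_one hL0, one_mul]
  have h1 : (M T).real {0} ≤ (nu M W h T).real {0} := by
    have := nu_ge S hh T (measurableSet_singleton (0 : ℝ)) (c := 1) zero_le_one (fun x hx => by
      rw [mem_singleton_iff] at hx
      rw [hx, F_zero hh, S.W0, one_mul])
    rwa [one_mul] at this
  have h2 : (nu M W h T).real {0} ≤ ∫ x, fl (tr L) x ∂(nu M W h T) := by
    have e : (nu M W h T).real {0} = ∫ x in ({0} : Set ℝ), fl (tr L) x ∂(nu M W h T) := by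
      rw [integral_singleton, F_zero hL0]
      simp
    rw [e]
    exact setIntegral_le_integral (F_integrable hL0) (ae_of_all _ fun x => F_nonneg hL0 x)
  linarith

lemma lin_low (S : Sys l M W C) {h : ℝ} (hh : 0 < h) (h0 : ∀ ε : ℝ, 0 < ε → ∃ δ : ℝ, 0 < δ ∧ ∀ᶠ T in l,
    (M T).real (Icc (-δ) δ) ≤ 1 + ε) : Lin l M W (-1) h := by
  intro ε hε
  obtain ⟨K, hK, hKT⟩ := nu_univ S hh
  obtain ⟨δ, hδ, h1⟩ := h0 (ε / 2) (by positivity)
  refine ⟨(2 * K / ε + 1) / δ, by positivity, fun L hL => ?_⟩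
  have hLδ : 2 * K / ε + 1 ≤ L * δ := by rwa [div_le_iff₀ hδ] at hL
  have hL0 : 0 < L := by
    have : 0 < (2 * K / ε + 1) / δ := by positivity
    linarith
  filter_upwards [h1, hKT] with T t1 t2
  have := S.fin T
  have hfi := nu_fin S hh T
  rw [int_one hL0]
  have h2 : ∫ x, fl (tr L) x ∂(nu M W h T) ≤ (nu M W h T).real (Icc (-δ) δ) + 1 / (L * δ) ^ 2 * (nu M W h T).real univ := by
    have hpt : ∀ x, fl (tr L) x ≤ (Icc (-δ) δ).indicator (fun _ => (1 : ℝ)) x + 1 / (L * δ) ^ 2 := by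
      intro x
      have hp : 0 ≤ 1 / (L * δ) ^ 2 := by positivity
      by_cases hx : x ∈ Icc (-δ) δ
      · rw [indicator_of_mem hx]
        linarith [F_le_one hL0 x]
      · rw [indicator_of_notMem hx, zero_add]
        refine F_off hL0 hδ ?_
        by_contra hcon
        exact hx (abs_le.1 (not_le.1 hcon).le)
    have i1 : Integrable ((Icc (-δ) δ).indicator fun _ => (1 : ℝ)) (nu M W h T) :=
      (integrable_const _).indicator measurableSet_Icc
    have i2 : Integrable (fun x => (Icc (-δ) δ).indicator (fun _ => (1 : ℝ)) x + 1 / (L * δ) ^ 2) (nu M W h T) :=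
      i1.add (integrable_const _)
    refine (integral_mono (F_integrable hL0) i2 hpt).trans (le_of_eq ?_)
    rw [integral_add i1 (integrable_const _), integral_indicator measurableSet_Icc, setIntegral_const,
      integral_const]
    simp only [smul_eq_mul]
    ring
  have h3 := nu_le S hh T (measurableSet_Icc (a := -δ) (b := δ))
  have h4 : 1 / (L * δ) ^ 2 * (nu M W h T).real univ ≤ ε / 2 := by
    have hq : 0 < 2 * K / ε + 1 := by positivity
    have h5 : 1 / (L * δ) ^ 2 ≤ 1 / (2 * K / ε + 1) := by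
      refine one_div_le_one_div_of_le hq ?_
      have h6 : 1 ≤ 2 * K / ε + 1 := by
        have : 0 ≤ 2 * K / ε := by positivity
        linarith
      nlinarith
    have h7 : 1 / (L * δ) ^ 2 * (nu M W h T).real univ ≤ 1 / (2 * K / ε + 1) * K :=
      mul_le_mul h5 t2 measureReal_nonneg (by positivity)
    refine h7.trans ?_
    rw [one_div, inv_mul_le_iff₀ hq]
    have : (2 * K / ε + 1) * (ε / 2) = K + ε / 2 := by field_simp
    rw [this]
    linarith
  linarith

end Pool.Agent.Zk22.WF
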