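import Pool.Agent.Zk22.WF.F

/-! # The five statements for the zeros -/

set_option autoImplicit false

open MeasureTheory Set Filter Topology

namespace Pool.Agent.Zk22.WF

open Pool.Agent.Y749.Rig

lemma half_of_mea {l : Filter ℝ} {f : ℝ → ℝ → ℝ} (hf : ∀ T, Continuous (f T)) {s : ℝ} (hs : s = 1 ∨ s = -1)
    (h : Mea l f) : Half l s f := by
  intro κ ε hκ hε
  obtain ⟨B₀, hB₀, h1⟩ := h κ ε hκ hε
  refine ⟨B₀, hB₀, fun B hB => ?_⟩
  filter_upwards [h1 B hB] with T hT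
  refine le_trans ?_ hT
  have hsub : {b : ℝ | b ∈ Icc 0 B ∧ κ < |f T b - 1|} ⊆ Icc 0 B := fun b hb => hb.1
  refine ENNReal.toReal_mono ((measure_mono hsub).trans_lt (by rw [Real.volume_Icc]; exact ENNReal.ofReal_lt_top)).ne ?_
  refine measure_mono fun b hb => ⟨hb.1, hb.2.trans_le ?_⟩
  rcases hs with rfl | rfl
  · rw [one_mul]
    exact le_abs_self _
  · rw [neg_one_mul]
    exact neg_le_abs _

lemma ms_half {l : Filter ℝ} (hl : l ≤ atTop) {C : ℝ} (S : Sys l Mp Wz C) {s : ℝ} (hs : s = 1 ∨ s = -1)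
    (hL : ∀ h : ℝ, 0 < h → Lin l Mp Wz s h) (hm : ∀ h : ℝ, 0 < h → Half l s fun T => wa h (Fr T)) : NoAt l Mp := by
  refine down S fun h hh => ms_of_half S hh hs (hL h hh) ?_
  have h2 : 0 < h / 2 := by linarith
  obtain ⟨K, hK, hb⟩ := wa_bdd hl S h2
  have h3 : HalfM l s fun T => fa h (Fr T) := by
    refine halfM Fr_cont (Eventually.of_forall fun T => Fr_even T) hh hK ?_ (hm (h / 2) h2)
    filter_upwards [hb] with T t1 b
    refine le_trans ?_ (t1 b)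
    rcases hs with rfl | rfl
    · rw [one_mul]
      exact le_abs_self _
    · rw [neg_one_mul]
      exact neg_le_abs _
  intro ε hε
  obtain ⟨B₀, hB₀, h4⟩ := h3 ε hε
  refine ⟨B₀, hB₀, fun B hB => ?_⟩
  filter_upwards [h4 B hB] with T t1
  simp_rw [ct_Fr hh]
  exact t1

/-- **the equivalence for the zeros** -/
theorem zeta_tfae5 {l : Filter ℝ} (hl : l ≤ atTop) : List.TFAE [NoAt l Mp,
    ∀ h : ℝ, 0 < h → Msq l fun T => wa h (Fr T), ∀ h : ℝ, 0 < h → Mea l fun T => wa h (Fr T),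
    ∀ h : ℝ, 0 < h → Half l 1 fun T => wa h (Fr T),
    (∀ ε : ℝ, 0 < ε → ∃ δ : ℝ, 0 < δ ∧ ∀ᶠ T in l, (Mp T).real (Icc (-δ) δ) ≤ 1 + ε) ∧
      ∀ h : ℝ, 0 < h → Half l (-1) fun T => wa h (Fr T)] := by
  have h0 := zeta_tfae hl
  obtain ⟨C, hC⟩ := sys_zeta
  have S := hC l hl
  have h13 : NoAt l Mp → ∀ h : ℝ, 0 < h → Mea l fun T => wa h (Fr T) := (h0.out 0 2).1
  tfae_have 1 ↔ 2 := h0.out 0 1
  tfae_have 2 ↔ 3 := h0.out 1 2
  tfae_have 3 → 4 := fun h3 h hh => half_of_mea (fun T => wa_cont (Fr_cont T) h) (Or.inl rfl) (h3 h hh)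
  tfae_have 4 → 1 := fun h4 => ms_half hl S (Or.inl rfl) (fun h hh => lin_up S hh) h4
  tfae_have 1 → 5 := by
    intro h1
    refine ⟨fun ε hε => ?_, fun h hh => half_of_mea (fun T => wa_cont (Fr_cont T) h) (Or.inr rfl)
      (h13 h1 h hh)⟩
    obtain ⟨δ, hδ, h2⟩ := h1 0 ε hε
    refine ⟨δ, hδ, ?_⟩
    rw [zero_sub, zero_add, if_pos rfl] at h2
    exact h2
  tfae_have 5 → 1 := fun h5 => ms_half hl S (Or.inr rfl) (fun h hh => lin_low S hh h5.1) h5.2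
  tfae_finish

end Pool.Agent.Zk22.WF
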